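import Pool.Agent.Run7.h555.Kept.TwoPartTwistsSqrtNegThree
import Pool.Agent.Run7.h268.FN.Cong

/-!
# The 2-part of the conjecture of Birch and Swinnerton-Dyer for `y² = x³ + m³`, for the numbers `m` with a
# fixed number of prime factors from an arbitrary dense set

`C_m : y² = x³ - 3 m x² + 3 m² x`, isomorphic to `y² = x³ + m³`, is the quadratic twist by the squarefree
number `m` of the curve `y² = x³ + 1` of conductor `36` with complex multiplication by `ℤ[ω]`,
`ω² + ω + 1 = 0`; the prime factors of `m` are `1` modulo `4`. The 2-part of the conjecture, with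
`z = #C_m(ℚ)_tors² L(C_m, 1) / (Ω ∏ c_p)` a unit at two, is: `C_m(ℚ)` is finite, `Ш(C_m/ℚ)[2^∞] = 0`,
`L(C_m, 1) ≠ 0`, and `z`, `1 / z` are integral at the primes above two. The team's theorem
`MP_f50388_nt/TwoPartTwistsSqrtNegThree` says for which `m` this holds, and that the proportion
among all `m` of the class is `0.4194...`; almost all of these have about `(1/2) log log m` prime
factors.

Here the number of the prime factors is fixed, and they are taken from an arbitrary set `S` of primes.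
Let `P n = ∏_{i < (n+1)/2} (1 - 2^{-(2i+1)})`, the proportion of the invertible matrices among the
symmetric `n` times `n` matrices over the field with two elements: `1, 1/2, 1/2, 7/16, 7/16, 217/512, …`.
* Let `l ≥ 1`, and suppose that, for all large `Y`, `S` contains at least a positive proportion of the
  primes up to `Y` in the class `5` modulo `12` (inert in `ℚ(√-3)`), and (if `k > 0`) in the class `1`
  modulo `12` (split). The number of the `m ≤ X` with `k` prime factors `1` modulo `12` and `l` which are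
  `5` modulo `12`, all in `S`, has the order of magnitude `X (log log X)^(k+l-1) / log X`, and the 2-part
  of the conjecture holds with `z` a unit for exactly the proportion `P k`.
* If all prime factors are `1` modulo `12`, with `-3` a fourth power modulo `b` of them and no fourth power
  modulo `r` of them, then the proportion is `P (b+r-1)` for odd `r`, `P (b+r-2)` for even `r > 0`, and zero
  for `r = 0`.
The conditions of the first part hold, for instance, for each residue class modulo a number prime to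
`6`. In particular the rank part of the conjecture holds for `C_m`, rank and order being zero, for at
least this proportion of the `m` of the family, minus `ε`, for all large `X`.

The proof. The matrix of quadratic symbols of the criterion is indexed by the prime factors `1` modulo
`12` only. For fixed numbers of prime factors from `S` almost all `m` have only large prime factors;
the large sieve for the quadratic symbols gives the equidistribution in boxes with a saving of a
power of the logarithm, for arbitrary subsets of the primes (`Pool/Agent/Run7/h268/FN`, on the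
base of `Pool/Agent/V11291/FK`). The matrix is a random symmetric matrix in the first part; in the second
part it is a random symmetric matrix with given row sums.
-/

set_option autoImplicit false

open Filter Topology

namespace Pool.Agent.Results.MP_e996df_nt.FixedNumberSqrtNegThree

open Pool.Agent.Results.MP_f50388_nt.TwoPartTwistsSqrtNegThree (E IsLFun anOrder TwoPart)
open Pool.Agent.TH841.NF.D (Sha)

/-- the number of the prime factors of `m` with the property `P` -/
noncomputable def number (P : ℕ → Prop) (m : ℕ) : ℕ := Nat.card {p : ℕ // p.Prime ∧ p ∣ m ∧ P p}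

/-- `-3` is a fourth power modulo `p` -/
def Fourth (p : ℕ) : Prop := ∃ x : ZMod p, x ^ 4 = -3

/-- `m` is squarefree, and all its prime factors are `1` modulo `4` and in `S` -/
def InClass (S : Set ℕ) (m : ℕ) : Prop :=
  Squarefree m ∧ ∀ p : ℕ, p.Prime → p ∣ m → p % 4 = 1 ∧ p ∈ S

/-- `m` is in the class, `k` of its prime factors are `1` modulo `12`, and `l` are `5` modulo `12` -/
def Family (S : Set ℕ) (k l m : ℕ) : Prop :=
  InClass S m ∧ number (fun p => p % 12 = 1) m = k ∧ number (fun p => p % 12 = 5) m = l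

/-- `m` is in the class, all its prime factors are `1` modulo `12`, and `-3` is a fourth power modulo
`b` of them and no fourth power modulo `r` of them -/
def SplitFamily (S : Set ℕ) (b r m : ℕ) : Prop :=
  InClass S m ∧ number (fun p => p % 12 = 5) m = 0 ∧
    number (fun p => p % 12 = 1 ∧ Fourth p) m = b ∧ number (fun p => p % 12 = 1 ∧ ¬ Fourth p) m = r

/-- at least a positive proportion of the primes up to `Y` is in `S` and has the property `P`, for all
large `Y` -/
def Dense (S : Set ℕ) (P : ℕ → Prop) : Prop := ∃ (δ : ℝ) (Y₀ : ℕ), 0 < δ ∧ ∀ Y : ℕ, Y₀ ≤ Y →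
  δ * (Y / Real.log Y) ≤ (Nat.card {p : ℕ // p ≤ Y ∧ p.Prime ∧ p ∈ S ∧ P p} : ℝ)

/-- the number of the `m` with `1 ≤ m ≤ X` and `Q m` -/
noncomputable def count (Q : ℕ → Prop) (X : ℕ) : ℕ := Nat.card {m : ℕ // 1 ≤ m ∧ m ≤ X ∧ Q m}

/-- `F` has the order of magnitude `X (log log X)^(n-1) / log X`, and the 2-part of the conjecture holds
for exactly the proportion `a` of the `m` in `F` -/
def Law (F : ℕ → Prop) (n : ℕ) (a : ℝ) : Prop :=
  (∃ (c C : ℝ) (X₀ : ℕ), 0 < c ∧ 0 < C ∧ ∀ X : ℕ, X₀ ≤ X →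
    c * (X * Real.log (Real.log X) ^ (n - 1) / Real.log X) ≤ (count F X : ℝ) ∧
    (count F X : ℝ) ≤ C * (X * Real.log (Real.log X) ^ (n - 1) / Real.log X)) ∧
  Tendsto (fun X : ℕ => (count (fun m => F m ∧ TwoPart m) X : ℝ) / (count F X : ℝ)) atTop (𝓝 a)

/-- `P n = ∏_{i < (n+1)/2} (1 - 2^{-(2i+1)})` -/
noncomputable def P (n : ℕ) : ℝ :=
  ∏ i ∈ Finset.range ((n + 1) / 2), (1 - (1 / 2 : ℝ) ^ (2 * i + 1))

/-- the rank part of the conjecture for `C_m`, rank and order zero: `C_m(ℚ)` is finite, and the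
L-function is entire and not zero at `1` -/
def RankPart (m : ℕ) : Prop :=
  Finite (E m).toAffine.Point ∧ ∃ F : ℂ → ℂ, IsLFun m F ∧ F 1 ≠ 0

section proof

open Run7.h268.FN
open Pool.Agent.V11291.FK (PG Dn)
open Run7.h26.QF (f36 Gd12 Sol12 cu12)

/-- the marked primes -/
def mr (p : ℕ) : Prop := p % 12 = 1

/-- the primes of the class -/
def AC (S : Set ℕ) (p : ℕ) : Prop := p.Prime ∧ p % 4 = 1 ∧ p ∈ S

/-- the kinds of the primes for the first part -/
def c1 (p : ℕ) : ℕ := if p % 12 = 1 then 1 else 0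

open Classical in
/-- the kinds of the primes for the second part -/
noncomputable def c2 (p : ℕ) : ℕ := if p % 12 = 1 then (if Fourth p then 1 else 2) else 0

theorem c1_iff (p : ℕ) : (c1 p = 1 ↔ p % 12 = 1) ∧ (c1 p = 0 ↔ ¬ p % 12 = 1) := by
  unfold c1
  by_cases h : p % 12 = 1
  · simp [h]
  · simp [h]

theorem c2_iff (p : ℕ) : (c2 p = 1 ↔ p % 12 = 1 ∧ Fourth p) ∧
    (c2 p = 2 ↔ p % 12 = 1 ∧ ¬ Fourth p) ∧ (c2 p = 0 ↔ ¬ p % 12 = 1) := by
  unfold c2
  by_cases h : p % 12 = 1
  · by_cases h2 : Fourth p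
    · simp [h, h2]
    · simp [h, h2]
  · simp [h]

theorem adm1 (S : Set ℕ) : Adm (AC S) c1 mr (fun r => r = 1) where
  prime _ h := h.1
  odd p h := by
    rintro rfl
    exact absurd h.2.1 (by norm_num)
  four p h _ := h.2.1
  mark p _ := (c1_iff p).1.symm

theorem adm2 (S : Set ℕ) : Adm (AC S) c2 mr (fun r => r ≠ 0) where
  prime _ h := h.1
  odd p h := by
    rintro rfl
    exact absurd h.2.1 (by norm_num)
  four p h _ := h.2.1
  mark p _ := by
    rw [Ne, (c2_iff p).2.2, not_not]
    exact Iff.rfl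

theorem gd_eq (Q : Finset ℕ) : Gd12 f36 Q ↔ GdM mr f36 Q := by
  have e : ∀ x : ℕ → ZMod 2, cu12 x = cuM mr x := by
    intro x
    funext q
    unfold cu12 cuM mr
    by_cases h : q % 12 = 1
    · rw [if_pos h, if_pos h]
    · rw [if_neg h, if_neg h]
  unfold Gd12 GdM Sol12 SolM
  simp only [e]
  exact Iff.rfl

theorem class_of {S : Set ℕ} {m : ℕ} (h : InClass S m) :
    Pool.Agent.Results.MP_f50388_nt.TwoPartTwistsSqrtNegThree.Class m :=
  ⟨h.1, fun p hp hd => (h.2 p hp hd).1⟩

theorem two_gdM {S : Set ℕ} {m : ℕ} (h : InClass S m) : TwoPart m ↔ GdM mr f36 m.primeFactors := by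
  have hc := class_of h
  rw [(Pool.Agent.Results.MP_f50388_nt.TwoPartTwistsSqrtNegThree.core hc).2.1,
    Pool.Agent.Results.MP_f50388_nt.TwoPartTwistsSqrtNegThree.crit_iff m, ← gd_eq]

theorem class_iff {S : Set ℕ} {m : ℕ} : InClass S m ↔ Squarefree m ∧ ∀ p ∈ m.primeFactors, AC S p := by
  constructor
  · rintro ⟨h1, h2⟩
    exact ⟨h1, fun p hp => ⟨Nat.prime_of_mem_primeFactors hp,
      h2 p (Nat.prime_of_mem_primeFactors hp) (Nat.dvd_of_mem_primeFactors hp)⟩⟩
  · rintro ⟨h1, h2⟩
    exact ⟨h1, fun p hp hd => (h2 p (Nat.mem_primeFactors.2 ⟨hp, hd, h1.ne_zero⟩)).2⟩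

/-- a prime factor is `1` or `5` modulo `12` -/
theorem mod12 {p : ℕ} (hp : p.Prime) (h : p % 4 = 1) : p % 12 = 5 ↔ ¬ p % 12 = 1 := by
  have h3 : p % 3 ≠ 0 := by
    intro h3
    have h4 := (Nat.prime_dvd_prime_iff_eq Nat.prime_three hp).1 (Nat.dvd_of_mod_eq_zero h3)
    omega
  omega

theorem fam1 {S : Set ℕ} {k l m : ℕ} : Family S k l m ↔ FamN (AC S) c1 (ty k l 1 0) m := by
  rw [famN_iff one_ne_zero]
  unfold Family number
  rw [class_iff, and_assoc]
  refine and_congr_right fun h1 => and_congr_right fun h2 => ?_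
  simp only [(c1_iff _).1, (c1_iff _).2]
  rw [card_pf_congr h1.ne_zero (P := fun p => p % 12 = 5) (Q := fun p => ¬ p % 12 = 1)
    fun p hp => mod12 (h2 p hp).1 (h2 p hp).2.1]
  constructor
  · rintro ⟨h3, h4⟩
    exact ⟨fun p _ => em _, h3, h4⟩
  · rintro ⟨-, h3, h4⟩
    exact ⟨h3, h4⟩

theorem fam2 {S : Set ℕ} {b r m : ℕ} : SplitFamily S b r m ↔ FamN (AC S) c2 (ty b r 1 2) m := by
  rw [famN_iff (by norm_num : 1 ≠ 2)]
  unfold SplitFamily number
  rw [class_iff, and_assoc]
  refine and_congr_right fun h1 => and_congr_right fun h3 => ?_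
  simp only [(c2_iff _).1, (c2_iff _).2.1]
  rw [card_pf_zero h1.ne_zero]
  have e3 : (∀ p ∈ m.primeFactors, ¬ (p % 12 = 5)) ↔
      ∀ p ∈ m.primeFactors, (p % 12 = 1 ∧ Fourth p) ∨ (p % 12 = 1 ∧ ¬ Fourth p) := by
    refine forall₂_congr fun p hp => ?_
    have h12 := mod12 (h3 p hp).1 (h3 p hp).2.1
    by_cases h : p % 12 = 1
    · by_cases h2 : Fourth p
      · simp [h, h2]
      · simp [h, h2]
    · simp [h, h12.2 h]
  rw [e3]

theorem law_of {S : Set ℕ} {F : ℕ → Prop} {cl : ℕ → ℕ} {M : ℕ → Prop} {a b u v : ℕ} {t : ℝ}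
    (hA : Adm (AC S) cl mr M) (h : ∀ m, F m ↔ FamN (AC S) cl (ty a b u v) m)
    (hF : ∀ m, F m → InClass S m) (hab : 1 ≤ a + b) (h0 : 0 ≤ t) (h1 : t ≤ 1)
    (ht : @Prob (Fin a ⊕ Fin b) _ (ordS a b) (AC S) cl M f36 (ty a b u v) t)
    (hD : ∀ i, Dn (PG (AC S) cl (ty a b u v) i)) : Law F (a + b) t := by
  have e : F = FamN (AC S) cl (ty a b u v) := funext fun m => propext (h m)
  have e2 : (fun m => F m ∧ TwoPart m) =
      fun m => FamN (AC S) cl (ty a b u v) m ∧ GdM mr f36 m.primeFactors := by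
    funext m
    rw [← e]
    exact propext (and_congr_right fun hm => two_gdM (hF m hm))
  unfold Law
  rw [e2, e]
  exact law_ty hA hab h0 h1 ht hD

theorem dn_of_dense {S : Set ℕ} {Q : ℕ → Prop} {R : ℕ → Prop} (h : Dense S Q)
    (hR : ∀ p, p.Prime → p ∈ S → Q p → R p) : Dn R := by
  obtain ⟨δ, Y₀, hδ, h⟩ := h
  exact dn_of hδ h fun p hp => hR p hp.1 hp.2.1 hp.2.2

theorem law_mixed (S : Set ℕ) (k l : ℕ) (hl : 1 ≤ l) (hk : 0 < k → Dense S fun p => p % 12 = 1)
    (hi : Dense S fun p => p % 12 = 5) : Law (Family S k l) (k + l) (P k) := by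
  let _ : LinearOrder (Fin k ⊕ Fin l) := ordS k l
  refine law_of (adm1 S) (fun m => fam1) (fun m hm => hm.1) (by omega) (sp_nonneg k)
    (sp_le_one k) ?_ ?_
  · intro p _
    have h1 := card_JM (fun r => r = 1) k l 1 0 rfl zero_ne_one
    have h2 := PrT_unmarked Pool.Agent.Y839.CQ.t_SYM (JM (fun r => r = 1) (ty k l 1 0))
      ⟨Sum.inr ⟨0, by omega⟩, fun h => by
        unfold JM at h
        simp only [Finset.mem_filter] at h
        exact absurd h.2 zero_ne_one⟩ (fun i => f36 (p i))
    rw [h1] at h2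
    exact h2
  · rintro (i | i)
    · refine dn_of_dense (hk (by have := i.2; omega)) fun p hp hS hs =>
        ⟨⟨hp, by omega, hS⟩, ?_⟩
      exact (c1_iff p).1.2 hs
    · refine dn_of_dense hi fun p hp hS hs => ⟨⟨hp, by omega, hS⟩, ?_⟩
      exact (c1_iff p).2.2 (by omega)

theorem law_split (S : Set ℕ) (b r : ℕ) (hbr : 1 ≤ b + r)
    (hb : 0 < b → Dense S fun p => p % 12 = 1 ∧ Fourth p)
    (hr : 0 < r → Dense S fun p => p % 12 = 1 ∧ ¬ Fourth p) :
    Law (SplitFamily S b r) (b + r)
      (if r = 0 then 0 else if Odd r then P (b + r - 1) else P (b + r - 2)) := by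
  have h01 := prp_mem b r
  refine law_of (adm2 S) (fun m => fam2) (fun m hm => hm.1) hbr h01.1 h01.2 ?_ ?_
  · refine prob_all f36 one_ne_zero two_ne_zero hbr (fun p _ h => ?_) fun p _ h => ?_
    · have h2 := ((c2_iff p).1.1 h).2
      unfold f36
      exact if_pos h2
    · have h2 := ((c2_iff p).2.1.1 h).2
      unfold f36
      exact if_neg h2
  · rintro (i | i)
    · refine dn_of_dense (hb (by have := i.2; omega)) fun p hp hS hs =>
        ⟨⟨hp, by omega, hS⟩, ?_⟩
      exact (c2_iff p).1.2 hs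
    · refine dn_of_dense (hr (by have := i.2; omega)) fun p hp hS hs =>
        ⟨⟨hp, by omega, hS⟩, ?_⟩
      exact (c2_iff p).2.1.2 hs

theorem dense_class {q c : ℕ} (hq : Nat.Coprime q 6) (hc : Nat.Coprime c q) (Q : ℕ → Prop) (r : ℕ)
    (hr : Nat.Coprime r 12) (hr12 : r < 12) (hQ : ∀ p, p % 12 = r → Q p) :
    Dense {p | p % q = c % q} Q := by
  have hq2 : Nat.Coprime q 2 := Nat.Coprime.coprime_dvd_right (by norm_num) hq
  have hq3 : Nat.Coprime q 3 := Nat.Coprime.coprime_dvd_right (by norm_num) hq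
  have hq12 : Nat.Coprime q 12 := by
    have h4 : Nat.Coprime q (2 ^ 2 * 3) := Nat.Coprime.mul_right (Nat.Coprime.pow_right 2 hq2) hq3
    exact h4
  have hq0 : 1 ≤ q := (Nat.coprime_two_right.1 hq2).pos
  have h := Run7.h268.FN.dn_class (q := q) (c := c) (m := 12) (r := r) (by norm_num) hq12 hq0 hc hr hr12
  have h2 : Pool.Agent.V11291.FK.Dn fun p =>
      p.Prime ∧ p ∈ {p | p % q = c % q} ∧ Q p := by
    obtain ⟨δ, Y₀, hδ, h⟩ := h
    refine ⟨δ, Y₀, hδ, fun Y hY => (h Y hY).trans ?_⟩
    refine Nat.cast_le.2 (Finset.card_le_card fun p hp => ?_)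
    simp only [Finset.mem_filter] at hp ⊢
    obtain ⟨h0, h1, h2, h3⟩ := hp
    exact ⟨h0, h1, h2, hQ p h3⟩
  exact Run7.h268.FN.card_of_dn h2

theorem rank_of {m : ℕ} (h : TwoPart m) : RankPart m := by
  obtain ⟨h1, -, F, h2, h3, -⟩ := h
  exact ⟨h1, F, h2, h3⟩

theorem ev_rank {F : ℕ → Prop} {n : ℕ} {a : ℝ} (h : Law F n a) {ε : ℝ} (hε : 0 < ε) :
    ∀ᶠ X : ℕ in atTop, (a - ε) * (count F X : ℝ) ≤ (count (fun m => F m ∧ RankPart m) X : ℝ) := by
  filter_upwards [h.2.eventually (lt_mem_nhds (show a - ε < a by linarith))] with X hX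
  have h2 : (count (fun m => F m ∧ TwoPart m) X : ℝ) ≤
      (count (fun m => F m ∧ RankPart m) X : ℝ) := by
    unfold count
    rw [card_Icc, card_Icc]
    refine Nat.cast_le.2 (Finset.card_le_card fun D hD => ?_)
    simp only [Finset.mem_filter] at hD ⊢
    exact ⟨hD.1, hD.2.1, rank_of hD.2.2⟩
  refine le_trans ?_ h2
  rcases (Nat.cast_nonneg (α := ℝ) (count F X)).eq_or_lt with h0 | h0
  · rw [← h0, mul_zero]
    positivity
  · exact ((lt_div_iff₀ h0).1 hX).le

end proof

theorem card_symm_matrices (n : ℕ) :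
    (Nat.card {M : Matrix (Fin n) (Fin n) (ZMod 2) // M.IsSymm ∧ M.det ≠ 0} : ℝ) =
      P n * Nat.card {M : Matrix (Fin n) (Fin n) (ZMod 2) // M.IsSymm} := by
  rw [Pool.Agent.Y839.CQ.t_SYM n, Pool.Agent.Y219.CQ.card_symm]
  push_cast
  exact mul_comm _ _

/-- **The 2-part of the conjecture for `y² = x³ + m³`, for the numbers `m` with a fixed number of prime
factors from a set of positive density.** -/
theorem result :
    -- the numbers `P n`
    (∀ n : ℕ, (Nat.card {M : Matrix (Fin n) (Fin n) (ZMod 2) // M.IsSymm ∧ M.det ≠ 0} : ℝ) =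
      P n * Nat.card {M : Matrix (Fin n) (Fin n) (ZMod 2) // M.IsSymm}) ∧
    -- a single number
    (∀ (S : Set ℕ) (m : ℕ), InClass S m → (TwoPart m → RankPart m) ∧
      (TwoPart m ↔ Finite (E m).toAffine.Point ∧ ∀ x : Sha (E m), x + x = 0 → x = 0) ∧
      ∃ F : ℂ → ℂ, IsLFun m F ∧
        (∃ k : ℤ, Odd k ∧ _root_.IsIntegral ℤ (k * anOrder m (F 1))) ∧
        ∀ (Γ : Type) [LinearOrderedCommGroupWithZero Γ] (v : Valuation ℂ Γ), v 2 < 1 →
          v (anOrder m (F 1)) ≤ 1 ∧ (v (anOrder m (F 1)) = 1 ↔ TwoPart m)) ∧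
    -- at least one prime factor `5` modulo `12`
    (∀ (S : Set ℕ) (k l : ℕ), 1 ≤ l → (0 < k → Dense S fun p => p % 12 = 1) →
      Dense S (fun p => p % 12 = 5) → Law (Family S k l) (k + l) (P k)) ∧
    -- all prime factors `1` modulo `12`
    (∀ (S : Set ℕ) (b r : ℕ), 1 ≤ b + r → (0 < b → Dense S fun p => p % 12 = 1 ∧ Fourth p) →
      (0 < r → Dense S fun p => p % 12 = 1 ∧ ¬ Fourth p) →
      Law (SplitFamily S b r) (b + r)
        (if r = 0 then 0 else if Odd r then P (b + r - 1) else P (b + r - 2))) ∧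
    -- the rank part
    (∀ (F : ℕ → Prop) (n : ℕ) (a ε : ℝ), Law F n a → 0 < ε → ∀ᶠ X : ℕ in atTop,
      (a - ε) * (count F X : ℝ) ≤ (count (fun m => F m ∧ RankPart m) X : ℝ)) ∧
    -- the residue classes modulo numbers prime to `6`
    (∀ q c : ℕ, Nat.Coprime q 6 → Nat.Coprime c q →
      Dense {p | p % q = c % q} (fun p => p % 12 = 1) ∧
      Dense {p | p % q = c % q} (fun p => p % 12 = 5)) := by
  refine ⟨card_symm_matrices, fun S m h => ⟨rank_of, ?_⟩, law_mixed, law_split,
    fun F n a ε h hε => ev_rank h hε, fun q c hq hc => ⟨?_, ?_⟩⟩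
  · obtain ⟨h1, h2, F, h3, h4, h5⟩ :=
      Pool.Agent.Results.MP_f50388_nt.TwoPartTwistsSqrtNegThree.core (class_of h)
    refine ⟨h2.trans h1.symm, F, h3, h4, fun Γ _ v hv => ?_⟩
    rw [h2]
    exact h5 Γ v hv
  · exact dense_class hq hc _ 1 (by norm_num) (by norm_num) fun p hp => hp
  · exact dense_class hq hc _ 5 (by norm_num) (by norm_num) fun p hp => hp

end Pool.Agent.Results.MP_e996df_nt.FixedNumberSqrtNegThree
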