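import Pool.Agent.Run7.h26.QJ.Va
import Pool.Agent.Run7.h26.QI.Ct10
import Pool.Agent.Run7.h26.QJ.Tp
import Pool.Agent.Run7.h26.QJ.Ta
import Pool.Agent.Run7.h763.QJ.IXE
import Pool.Agent.Run7.h795.QJ.IX4
import Pool.Agent.Run7.h795.QJ.IXI
import Pool.Agent.Run7.h843.QJ.PAR2
import Pool.Agent.Run7.h843.QJ.CvM
import Pool.Agent.Run7.h843.QJ.Ex

/-!
# The 2-part of the Birch and Swinnerton-Dyer conjecture for more than a quarter of ALL
# quadratic twists of `y² = x³ - x` over `ℚ(i)`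

`K` is a number field with an isomorphism `e` of the ring `ℤ[i]` of Gaussian integers with its ring
of integers (so `K = ℚ(i)`), and `E_g : y² = x³ - g² x` the quadratic twist of `y² = x³ - x` by
the Gaussian integer `g`. The class is the set of ALL squarefree `g` with odd imaginary part, two thirds of
all squarefree `g`; these are the `g = ± c D` with `c = i`, `1 + i` or `i (1 + i)` and `D ≡ 1 mod 2 + 2i` squarefree,
without any other condition. For all `g` of the class the quotient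
`Q(g) = L(E_g/K, 1) √|disc K| 4² / (Ω ∏ c_v)`, with the period `Ω` and the Tamagawa numbers `c_v`, is
integral at all valuations above `2`, and the following are equivalent:
* `Q(g)` is a unit at one valuation above `2` (or at all of them);
* `E_g(K)` is finite and `Ш(E_g/K)[2] = 0`;
* the 2-part of the strong conjecture holds in the form `TwoPart`: `L(E_g/K, 1) ≠ 0`, `E_g(K)` is finite,
  `Ш(E_g/K)[2^∞] = 0`, and the formula holds up to units above `2`;
* an explicit criterion holds, on the quadratic symbols between the prime factors of `D` and of these primes with `c`.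

In this case `E_g(K)` has exactly `4` elements.
Exactly the proportion `κ = ∏_{i ≥ 0} (1 - 2^{-(2i+1)}) = 0.4194...` of the class, ordered by norm, has these properties.

The rank part for these `g` is `MP_cd906c_nt.GaussianTwistsFiveSixths` (helper26, with the classes of helper699 and
helper691). New here: Sha, the Tamagawa numbers at all places (types I₀* and I₄* at `1 + i`), and
the exact valuation of the central value, for all `g` of the class (`Pool/Agent/Run7/h26/QJ`, pieces by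
helper160, helper763, helper795, helper843); the converse of the descent, `Pool/Agent/Run7/h843/QJ` (helper843; see also
`MP_78d38b_nt.GaussianTwistsShaExactLaw`). Earlier 2-part over `ℚ(i)`: quartic twists `y² = x³ + D x`, `N(D) ≡ 13 mod 16`,
1.74 percent of them (starting file `TwoPartQuarticProportion`, and helper691).
-/

set_option autoImplicit false

namespace Pool.Agent.Results.MP_e996df_nt.GaussianTwistsTwoPart

open NumberField IsDedekindDomain

/-- `W v` is, for every finite place `v`, an integral model of `E` with discriminant minimal at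
`v`. -/
def MinimalModels {K : Type} [Field K] [NumberField K] (E : WeierstrassCurve K)
    (W : HeightOneSpectrum (𝓞 K) → WeierstrassCurve (𝓞 K)) : Prop :=
  ∀ v : HeightOneSpectrum (𝓞 K),
    (∃ C : WeierstrassCurve.VariableChange K, C • (W v).map (algebraMap (𝓞 K) K) = E) ∧
    ∀ W' : WeierstrassCurve (𝓞 K),
      (∃ C : WeierstrassCurve.VariableChange K, C • W'.map (algebraMap (𝓞 K) K) = E) →
      ∀ n : ℕ, (W v).Δ ∈ v.asIdeal ^ n → W'.Δ ∈ v.asIdeal ^ n

open Classical in
/-- The Euler factor at `v`, `(1 - a_v Nv^{-s} + Nv^{1-2s})⁻¹` if the reduction at `v` is good and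
`(1 - a_v Nv^{-s})⁻¹` if it is bad, where `a_v` is `Nv` minus the number of affine points of the
reduction of `W v`. -/
noncomputable def localFactor {K : Type} [Field K] [NumberField K]
    (W : HeightOneSpectrum (𝓞 K) → WeierstrassCurve (𝓞 K)) (v : HeightOneSpectrum (𝓞 K))
    (s : ℂ) : ℂ :=
  (1 - ((Ideal.absNorm v.asIdeal : ℂ)
        - (Nat.card {xy : (𝓞 K ⧸ v.asIdeal) × (𝓞 K ⧸ v.asIdeal) //
            ((W v).map (Ideal.Quotient.mk v.asIdeal)).toAffine.Equation xy.1 xy.2} : ℂ))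
        * (Ideal.absNorm v.asIdeal : ℂ) ^ (-s)
    + (if (W v).Δ ∈ v.asIdeal then 0 else (Ideal.absNorm v.asIdeal : ℂ))
        * (Ideal.absNorm v.asIdeal : ℂ) ^ (-2 * s))⁻¹

/-- `L` is the entire continuation of the `L`-function of `E`, the product of the Euler factors of the
minimal models for `Re s > 3/2`; `E` has minimal models. -/
def IsLFunction {K : Type} [Field K] [NumberField K] (E : WeierstrassCurve K) (L : ℂ → ℂ) : Prop :=
  Differentiable ℂ L ∧ (∃ W : HeightOneSpectrum (𝓞 K) → WeierstrassCurve (𝓞 K), MinimalModels E W) ∧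
    ∀ W : HeightOneSpectrum (𝓞 K) → WeierstrassCurve (𝓞 K), MinimalModels E W →
      ∀ s : ℂ, 3 / 2 < s.re → HasProd (fun v => localFactor W v s) (L s)

open Classical in
/-- The equation `E` is integral and its discriminant is minimal at all finite places (`W` is the equation
over the ring of integers), and `c v` is the Tamagawa number of `E` at `v`: the index in
`E(K_v)` of the subgroup of the points of nonsingular reduction. -/
def IsTamagawa {K : Type} [Field K] [NumberField K] (E : WeierstrassCurve K)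
    (c : HeightOneSpectrum (𝓞 K) → ℕ) : Prop :=
  (∃ W : WeierstrassCurve (𝓞 K), W.map (algebraMap (𝓞 K) K) = E ∧ MinimalModels E (fun _ => W)) ∧
  (∀ v : HeightOneSpectrum (𝓞 K),
    ∃ H : AddSubgroup (E.baseChange (v.adicCompletion K)).toAffine.Point,
      (∀ P, P ∈ H ↔ Pool.Agent.Y696.NonsingRed Valued.v (E.baseChange (v.adicCompletion K)) P) ∧
      H.index = c v) ∧
  {v | c v ≠ 1}.Finite

/-- `Λ` is the lattice of periods of the differential `dx / (2y + a₁x + a₃)` of the curve `E`, embedded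
in the complex numbers by `σ`. -/
def IsPeriodLattice {K : Type} [Field K] (E : WeierstrassCurve K) (σ : K →+* ℂ)
    (Λ : PeriodPair) : Prop :=
  Λ.g₂ = σ E.c₄ / 12 ∧ Λ.g₃ = σ E.c₆ / 216

/-- Twice the area of a fundamental parallelogram of the lattice. -/
noncomputable def period (Λ : PeriodPair) : ℝ := 2 * |((starRingEnd ℂ) Λ.ω₁ * Λ.ω₂).im|

/-- The quotient `L(E, 1) √|disc K| t² / (Ω ∏ c_v)`. -/
noncomputable def quotient (K : Type) [Field K] [NumberField K] (L : ℂ → ℂ) (t : ℕ) (Λ : PeriodPair)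
    (c : HeightOneSpectrum (𝓞 K) → ℕ) : ℂ :=
  L 1 * (Real.sqrt |(discr K : ℝ)| : ℝ) * (t : ℂ) ^ 2 / ((period Λ : ℂ) * ((∏ᶠ v, c v : ℕ) : ℂ))

/-- The valuation part with `t` in the place of the order of `E(K)`: the quotient is
integral at all valuations `w` of the field of complex numbers with `w 2 < 1`, and it is a unit there exactly if
`G` holds. -/
def ValuePart {K : Type} [Field K] [NumberField K] (E : WeierstrassCurve K) (t : ℕ) (G : Prop) : Prop :=
  ∃ (L : ℂ → ℂ) (c : HeightOneSpectrum (𝓞 K) → ℕ), IsLFunction E L ∧ IsTamagawa E c ∧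
    ∀ σ : K →+* ℂ, (∃ Λ : PeriodPair, IsPeriodLattice E σ Λ) ∧
      ∀ Λ : PeriodPair, IsPeriodLattice E σ Λ →
        ∀ (Γ : Type) [LinearOrderedCommGroupWithZero Γ] (w : Valuation ℂ Γ), w 2 < 1 →
          w (quotient K L t Λ c) ≤ 1 ∧ (w (quotient K L t Λ c) = 1 ↔ G)

open Classical in
/-- The 2-part of the strong conjecture, rank zero: `E(K)` is finite (so of rank zero),
`Ш(E/K)[2^∞] = 0`, `L(E/K, s)` is entire with `L(E/K, 1) ≠ 0`, and
`L(E/K, 1) √|disc K| #E(K)² / (Ω ∏ c_v)` is a unit at every valuation `w` of the field of complex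
numbers with `w 2 < 1`. -/
def TwoPart {K : Type} [Field K] [NumberField K] (E : WeierstrassCurve K) : Prop :=
  Finite E.toAffine.Point ∧
  (∀ (n : ℕ) (x : Pool.Agent.TH841.NF.D.Sha E), 2 ^ n • x = 0 → x = 0) ∧
  ∃ (L : ℂ → ℂ) (c : HeightOneSpectrum (𝓞 K) → ℕ), IsLFunction E L ∧ L 1 ≠ 0 ∧ IsTamagawa E c ∧
    ∀ σ : K →+* ℂ, (∃ Λ : PeriodPair, IsPeriodLattice E σ Λ) ∧
      ∀ Λ : PeriodPair, IsPeriodLattice E σ Λ →
        ∀ (Γ : Type) [LinearOrderedCommGroupWithZero Γ] (w : Valuation ℂ Γ), w 2 < 1 →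
          w (quotient K L (Nat.card E.toAffine.Point) Λ c) = 1

/-- The curve `y² = x³ - g² x`. -/
noncomputable def twist {K : Type} [Field K] [NumberField K] (e : GaussianInt ≃+* 𝓞 K)
    (g : GaussianInt) : WeierstrassCurve K :=
  ⟨0, 0, 0, -(algebraMap (𝓞 K) K (e g)) ^ 2, 0⟩

/-- `D ≡ 1 mod 2 + 2i`. -/
def Primary (D : GaussianInt) : Prop := (⟨2, 2⟩ : GaussianInt) ∣ D - 1

/-- `a` is a square modulo each prime factor of `d`. -/
def SquareMod (d a : GaussianInt) : Prop :=
  ∀ π : GaussianInt, Prime π → π ∣ d → ∃ b, π ∣ a - b ^ 2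

/-- The criterion for `g = c D`: the only factorisation `D = d d'` with `d`, `d'` primary, `c d'` a square
modulo each prime factor of `d` and `d` a square modulo each prime factor of `d'` is the one with
`d = 1`. -/
def Criterion (c D : GaussianInt) : Prop :=
  ∀ d d' : GaussianInt, Primary d → Primary d' → D = d * d' →
    SquareMod d (c * d') → SquareMod d' d → d = 1

/-- `c` is `i`, `1 + i` or `i (1 + i)`. -/
def IsTwistor (c : GaussianInt) : Prop := c = ⟨0, 1⟩ ∨ c = ⟨1, 1⟩ ∨ c = ⟨0, 1⟩ * ⟨1, 1⟩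

/-- The class: `g` is squarefree and its imaginary part is odd. -/
def InClass (g : GaussianInt) : Prop := Squarefree g ∧ Odd g.im

/-- The explicit set: `g = ± c D` with `c` one of `i`, `1 + i`, `i (1 + i)`, `D` squarefree and primary, and the
criterion for `c D`. -/
def Good (g : GaussianInt) : Prop :=
  ∃ c D, IsTwistor c ∧ (g = c * D ∨ g = -(c * D)) ∧ (Primary D ∧ Squarefree D) ∧ Criterion c D

/-- For `K = ℚ(i)` (every number field `K` with an isomorphism `e` of `ℤ[i]` with its ring of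
integers), `y² = x³ - g² x` has exactly four points over `K` and satisfies `TwoPart`. -/
def Proved (g : GaussianInt) : Prop :=
  ∀ (K : Type) [Field K] [NumberField K] (e : GaussianInt ≃+* 𝓞 K),
    Nat.card (twist e g).toAffine.Point = 4 ∧ TwoPart (twist e g)

/-- The number of the Gaussian integers of norm at most `X` with the property `P`. -/
noncomputable def num (P : GaussianInt → Prop) (X : ℕ) : ℕ := {D : GaussianInt | D.norm ≤ X ∧ P D}.ncard

/-- The infinite product `(1 - 1/2) (1 - 1/8) (1 - 1/32) ⋯`. -/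
noncomputable def κ : ℝ := ∏' i : ℕ, (1 - (1 / 2 : ℝ) ^ (2 * i + 1))

theorem norm_iff (D : GaussianInt) (X : ℕ) : D.norm ≤ X ↔ H385.nrm D ≤ X := by
  have h0 : ((H385.nrm D : ℕ) : ℤ) = D.norm := GaussianInt.abs_natCast_norm D
  omega

theorem num_eq (P : GaussianInt → Prop) (X : ℕ) : num P X = Run7.h26.QI.nQ P X := by
  unfold num Run7.h26.QI.nQ
  congr 1
  ext D
  exact and_congr_left fun _ => norm_iff D X

theorem num_congr {P Q : GaussianInt → Prop} (h : ∀ g, P g ↔ Q g) (X : ℕ) : num P X = num Q X := by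
  unfold num
  congr 1
  ext g
  exact and_congr_right fun _ => h g

theorem num_mono {P Q : GaussianInt → Prop} (h : ∀ g, P g → Q g) (X : ℕ) : num P X ≤ num Q X := by
  rw [num_eq, num_eq]
  exact Set.ncard_le_ncard (fun g hg => ⟨hg.1, h g hg.2⟩) (Run7.h26.QI.fin_Q Q X)

theorem primary_iff (D : GaussianInt) : Primary D ↔ Pool.Agent.H304R2.EC.A1.prim D :=
  (Pool.Agent.W164.RC.prim_iff_dvd D).symm

theorem sp_iff (D : GaussianInt) : (Primary D ∧ Squarefree D) ↔ Pool.Agent.Y699.PS D :=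
  ⟨fun h => ⟨(primary_iff D).1 h.1, h.2⟩, fun h => ⟨(primary_iff D).2 h.prm, h.sqf⟩⟩

theorem square_iff {d a : GaussianInt} (hd0 : d ≠ 0) (ho : d.norm % 2 = 1)
    (hnd : ∀ π : GaussianInt, Prime π → π ∣ d → ¬ π ∣ a) :
    SquareMod d a ↔ ∀ π ∈ Pool.Agent.Y699.PD d, Pool.Agent.Y699.qr π a = 1 := by
  constructor
  · intro h π hπ
    rw [Pool.Agent.Y699.mem_PD hd0] at hπ
    have h1 := hnd π hπ.1.pr hπ.2
    have h2 := h π hπ.1.pr hπ.2
    unfold Pool.Agent.Y699.qr
    rw [if_neg h1, if_pos h2]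
  · intro h π hπ hπd
    have hodd : π.norm % 2 = 1 := Pool.Agent.Y699.odd_of_dvd hπd ho
    obtain ⟨ρ, hρ, hass⟩ := Pool.Agent.Y699.exists_PP hπ hodd
    have hρd : ρ ∣ d := hass.dvd.trans hπd
    have h1 := h ρ ((Pool.Agent.Y699.mem_PD hd0).2 ⟨hρ, hρd⟩)
    unfold Pool.Agent.Y699.qr at h1
    rw [if_neg (hnd ρ hρ.pr hρd)] at h1
    by_contra hc
    rw [if_neg (fun ⟨b, hb⟩ => hc ⟨b, hass.symm.dvd.trans hb⟩)] at h1
    exact absurd h1 (by norm_num)

theorem factor_data {D d d' : GaussianInt} (hD : Pool.Agent.Y699.PS D) (he : D = d * d') :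
    d ≠ 0 ∧ d.norm % 2 = 1 ∧ ∀ π : GaussianInt, Prime π → π ∣ d → ¬ π ∣ d' := by
  have hd0 : d ≠ 0 := by
    rintro rfl
    exact hD.ne (by rw [he, zero_mul])
  have ho : D.norm % 2 = 1 := Pool.Agent.H304R2.EC.A1.prim_norm_odd hD.prm
  refine ⟨hd0, Pool.Agent.Y699.odd_of_dvd ⟨d', he⟩ ho, ?_⟩
  intro π hπ h1 h2
  exact hπ.not_isUnit (hD.sqf π (by rw [he]; exact mul_dvd_mul h1 h2))

theorem twistor_iff (c : GaussianInt) : IsTwistor c ↔ Run7.h26.QI.cc3 c := Iff.rfl

theorem not_dvd_twistor {c π : GaussianInt} (hc : IsTwistor c) (hπ : Prime π) (ho : π.norm % 2 = 1) :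
    ¬ π ∣ c := by
  obtain ⟨ρ, hρ, hass⟩ := Pool.Agent.Y699.exists_PP hπ ho
  intro h
  exact Run7.h26.QI.not_dvd_cc3 ((twistor_iff c).1 hc) hρ (hass.dvd.trans h)

theorem crit_iff {c D : GaussianInt} (hc : IsTwistor c) :
    ((Primary D ∧ Squarefree D) ∧ Criterion c D) ↔ Run7.h26.QI.GoodC c D := by
  have main : ∀ d d' : GaussianInt, Pool.Agent.Y699.PS D → D = d * d' →
      ((SquareMod d (c * d') ↔ ∀ π ∈ Pool.Agent.Y699.PD d, Pool.Agent.Y699.qr π (c * d') = 1) ∧
      (SquareMod d' d ↔ ∀ π ∈ Pool.Agent.Y699.PD d', Pool.Agent.Y699.qr π d = 1)) := by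
    intro d d' hD he
    obtain ⟨a1, a2, a3⟩ := factor_data hD he
    obtain ⟨b1, b2, b3⟩ := factor_data hD (by rw [he, mul_comm] : D = d' * d)
    refine ⟨square_iff a1 a2 ?_, square_iff b1 b2 b3⟩
    intro π hπ h1 h2
    rcases hπ.dvd_or_dvd h2 with h3 | h3
    · exact not_dvd_twistor hc hπ (Pool.Agent.Y699.odd_of_dvd h1 a2) h3
    · exact a3 π hπ h1 h3
  constructor
  · rintro ⟨h1, h2⟩
    have hD := (sp_iff D).1 h1
    refine ⟨hD, fun d d' hd hd' he k1 k2 => ?_⟩
    obtain ⟨m1, m2⟩ := main d d' hD he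
    exact h2 d d' ((primary_iff d).2 hd) ((primary_iff d').2 hd') he (m1.2 k1) (m2.2 k2)
  · intro h
    refine ⟨(sp_iff D).2 h.ps, fun d d' hd hd' he k1 k2 => ?_⟩
    obtain ⟨m1, m2⟩ := main d d' h.ps he
    exact h.ker d d' ((primary_iff d).1 hd) ((primary_iff d').1 hd') he (m1.1 k1) (m2.1 k2)

theorem good_iff (g : GaussianInt) : Good g ↔ Run7.h26.QI.Good2 g := by
  unfold Good Run7.h26.QI.Good2
  refine exists_congr fun c => exists_congr fun D => ?_
  rw [twistor_iff]
  exact and_congr_right fun hc => and_congr_right fun _ => crit_iff ((twistor_iff c).2 hc)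

theorem class_iff (g : GaussianInt) : InClass g ↔ Run7.h26.QI.OddIm g :=
  and_congr_right fun _ => Int.odd_iff

theorem twist_neg {K : Type} [Field K] [NumberField K] (e : GaussianInt ≃+* 𝓞 K) (g : GaussianInt) :
    twist e (-g) = twist e g := by
  unfold twist
  rw [map_neg, map_neg, neg_sq]

theorem twist_q4 {K : Type} [Field K] [NumberField K] (e : GaussianInt ≃+* 𝓞 K) (g : GaussianInt) :
    twist e g = Pool.Agent.Y715.Z.q4 (-(Pool.Agent.Y715.Z.em0 e g) ^ 2) := by
  unfold twist Pool.Agent.Y715.Z.q4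
  rw [Pool.Agent.Y715.Z.em0_apply]

theorem tamagawa {c D : GaussianInt} (hc : Run7.h26.QI.cc3 c) (hD : Pool.Agent.Y699.PS D) {K : Type}
    [Field K] [NumberField K] (e : GaussianInt ≃+* 𝓞 K) :
    IsTamagawa (twist e (c * D)) (Run7.h26.QJ.cT e c D) := by
  have hne : c * D ≠ 0 := mul_ne_zero (Run7.h26.QI.cc3_ne hc) hD.ne
  refine ⟨⟨Pool.Agent.Y699.crv (e (c * D)), ?_, fun v => Run7.h26.QI.crv_min' e hne
    (Run7.h26.QI.noup_cD hc hD) (Run7.h26.QI.sq_cD hc hD) v⟩, fun v => ?_, (Run7.h26.QJ.t_TPR K e c D hc hD).1⟩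
  · unfold twist Pool.Agent.Y699.crv
    simp [WeierstrassCurve.map]
  · have hbc : (twist e (c * D)).baseChange (v.adicCompletion K) = Pool.Agent.Y715.Z.q4
        (algebraMap K (v.adicCompletion K) (-(Pool.Agent.Y715.Z.em0 e (c * D)) ^ 2)) := by
      rw [twist_q4]
      exact Pool.Agent.Y715.Z.q4_map _ _
    rw [hbc]
    exact (Run7.h26.QJ.t_TAM Run7.h795.QJ.t_IX4 Run7.h763.QJ.t_IXE Run7.h795.QJ.t_IXI) K e c D hc hD v

theorem period_data {K : Type} [Field K] [NumberField K] (e : GaussianInt ≃+* 𝓞 K) (g : GaussianInt)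
    (σ : K →+* ℂ) : σ (twist e g).c₄ / 12 = -4 * σ (-(Pool.Agent.Y715.Z.em0 e g) ^ 2) ∧
      σ (twist e g).c₆ / 216 = 0 ∧
      ‖σ (-(Pool.Agent.Y715.Z.em0 e g) ^ 2)‖ = ‖Pool.Agent.H304R3.HK.tc g‖ ^ 2 := by
  refine ⟨?_, ?_, ?_⟩
  · have h5 : (twist e g).c₄ = -48 * (-(Pool.Agent.Y715.Z.em0 e g) ^ 2) := by
      rw [twist_q4]
      exact Pool.Agent.Y715.Z.q4_c₄ _
    rw [h5, map_mul, map_neg, map_ofNat]
    ring
  · have h7 : (twist e g).c₆ = 0 := by
      simp only [twist, WeierstrassCurve.c₆, WeierstrassCurve.b₂, WeierstrassCurve.b₄,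
        WeierstrassCurve.b₆]
      ring
    rw [h7, map_zero, zero_div]
  · rw [map_neg, norm_neg, map_pow, norm_pow, Pool.Agent.Y715.Z.norm_emb e σ g]

theorem lfun {c D : GaussianInt} (hc : Run7.h26.QI.cc3 c) (hD : Pool.Agent.Y699.PS D) {K : Type}
    [Field K] [NumberField K] (e : GaussianInt ≃+* 𝓞 K) :
    ∃ L : ℂ → ℂ, IsLFunction (twist e (c * D)) L ∧
      ∀ σ : K →+* ℂ, (∃ Λ : PeriodPair, IsPeriodLattice (twist e (c * D)) σ Λ) ∧
        ∀ Λ : PeriodPair, IsPeriodLattice (twist e (c * D)) σ Λ →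
          ∀ (Γ : Type) [LinearOrderedCommGroupWithZero Γ] (w : Valuation ℂ Γ), w 2 < 1 →
            w (quotient K L 4 Λ (Run7.h26.QJ.cT e c D)) ≤ 1 ∧
            (w (quotient K L 4 Λ (Run7.h26.QJ.cT e c D)) = 1 ↔ Run7.h26.QI.GoodC c D) := by
  have hne : c * D ≠ 0 := mul_ne_zero (Run7.h26.QI.cc3_ne hc) hD.ne
  obtain ⟨L, h1, h2, h3⟩ := Run7.h26.QJ.val_all hc hD e
  refine ⟨L, ⟨h1, ⟨fun _ => Pool.Agent.Y699.crv (e (c * D)), fun v => Run7.h26.QI.crv_min' e hne
    (Run7.h26.QI.noup_cD hc hD) (Run7.h26.QI.sq_cD hc hD) v⟩, fun W hW s hs => h2 W hW s hs⟩, ?_⟩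
  intro σ
  obtain ⟨p1, p2, p3⟩ := period_data e (c * D) σ
  have hδ0 : σ (-(Pool.Agent.Y715.Z.em0 e (c * D)) ^ 2) ≠ 0 := by
    rw [Ne, map_eq_zero, neg_eq_zero]
    exact pow_ne_zero 2 (Pool.Agent.Y715.Z.em0_ne e hne)
  refine ⟨?_, ?_⟩
  · obtain ⟨Λ, k1, k2⟩ := Pool.Agent.Y715.Z.per_ex hδ0
    exact ⟨Λ, by rw [p1]; exact k1, by rw [p2]; exact k2⟩
  · intro Λ hΛ Γ _ w hw
    have k := h3 _ Λ p3 (hΛ.1.trans p1) (hΛ.2.trans p2) Γ w hw
    have hq : quotient K L 4 Λ (Run7.h26.QJ.cT e c D) =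
        L 1 * 2 * 4 ^ 2 / (((2 * |((starRingEnd ℂ) Λ.ω₁ * Λ.ω₂).im| : ℝ) : ℂ) *
            (4 ^ (Pool.Agent.Y699.PD D).card * ((if c = H385.im1 then 2 else 4 : ℕ) : ℂ))) := by
      unfold quotient period
      rw [Pool.Agent.Y715.Z.sqrt_discr e, (Run7.h26.QJ.t_TPR K e c D hc hD).2]
      push_cast
      rfl
    rw [hq]
    exact k

theorem value_cD {c D : GaussianInt} (hc : Run7.h26.QI.cc3 c) (hD : Pool.Agent.Y699.PS D) {K : Type}
    [Field K] [NumberField K] (e : GaussianInt ≃+* 𝓞 K) :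
    ValuePart (twist e (c * D)) 4 (Run7.h26.QI.GoodC c D) := by
  obtain ⟨L, h1, h2⟩ := lfun hc hD e
  exact ⟨L, Run7.h26.QJ.cT e c D, h1, tamagawa hc hD e, h2⟩

open Classical in
theorem proved_cD {c D : GaussianInt} (hc : Run7.h26.QI.cc3 c) (h : Run7.h26.QI.GoodC c D) :
    Proved (c * D) := by
  intro K _ _ e
  have hne : c * D ≠ 0 := mul_ne_zero (Run7.h26.QI.cc3_ne hc) h.ps.ne
  have hcard : Nat.card (twist e (c * D)).toAffine.Point = 4 := by
    have h0 : algebraMap (𝓞 K) K (e (c * D)) ≠ 0 := by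
      rw [Ne, map_eq_zero_iff _ (IsFractionRing.injective (𝓞 K) K), map_eq_zero_iff _ e.injective]
      exact hne
    exact Pool.Agent.Y699.card_pts h0 two_ne_zero (fun x y k => Run7.h26.QI.crit_pts' hc h e k)
  have hT : Pool.Agent.Y682.IsT (twist e (c * D)) 0 (-(Pool.Agent.Y715.Z.em0 e (c * D)) ^ 2) := by
    have h0 := Pool.Agent.Y715.Z.em0_ne (K := K) e hne
    exact { h1 := rfl, h2 := rfl, h3 := rfl, h4 := rfl, h6 := rfl
            hB := neg_ne_zero.2 (pow_ne_zero 2 h0)
            hD := by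
              rw [zero_pow two_ne_zero, zero_sub, neg_ne_zero]
              exact mul_ne_zero (by norm_num) (neg_ne_zero.2 (pow_ne_zero 2 h0)) }
  obtain ⟨L, h1, h2⟩ := lfun hc h.ps e
  refine ⟨hcard, Nat.finite_of_card_ne_zero (by rw [hcard]; norm_num),
    fun n x hx => Pool.Agent.Run7.h843.QJ.t_SHA' K e c D hc h _ hT n x hx, L, Run7.h26.QJ.cT e c D, h1, ?_,
    tamagawa hc h.ps e, fun σ => ⟨(h2 σ).1, fun Λ hΛ Γ _ w hw => ?_⟩⟩
  · obtain ⟨B, hB⟩ := Pool.Agent.Y699.exists_val
    obtain ⟨σ⟩ : Nonempty (K →+* ℂ) := inferInstance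
    obtain ⟨Λ, hΛ⟩ := (h2 σ).1
    have h3 := ((h2 σ).2 Λ hΛ _ B.valuation hB).2.2 h
    intro h4
    unfold quotient at h3
    rw [h4, zero_mul, zero_mul, zero_div, map_zero] at h3
    exact zero_ne_one h3
  · rw [hcard]
    exact ((h2 σ).2 Λ hΛ Γ w hw).2.2 h

/-- the converse: for `g` of the class and not in `Good` it is not true that `E_g(K)` is finite and
`Ш(E_g/K)[2] = 0` -/
theorem conv_class {g : GaussianInt} (hg : InClass g) {K : Type} [Field K] [NumberField K]
    (e : GaussianInt ≃+* 𝓞 K) (h : ¬ Good g) :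
    Finite (twist e g).toAffine.Point →
      (∀ x : Pool.Agent.TH841.NF.D.Sha (twist e g), 2 • x = 0 → x = 0) → False := by
  obtain ⟨c, D, hc', h3, hD⟩ := Run7.h26.QI.exists_cD ((class_iff g).1 hg)
  have h4 := Run7.h26.QI.good2_cD hc' hD h3
  have h6 : ¬ Run7.h26.QI.GoodC c D := fun k => h ((good_iff g).2 (h4.2 k))
  have h7 : twist e g = twist e (c * D) := by
    rcases h3 with h3 | h3 <;> rw [h3]
    rw [twist_neg]
  rw [h7]
  intro hf hs
  exact Pool.Agent.Run7.h843.QJ.conv_c e hc' hD h6 hf hs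

theorem good_proved {g : GaussianInt} (hg : Good g) : InClass g ∧ Proved g := by
  have h1 := (good_iff g).1 hg
  have h2 := (Run7.h26.QI.good2_iff g).1 h1
  refine ⟨(class_iff g).2 ⟨h2.1.sqf, h2.2⟩, ?_⟩
  obtain ⟨c, D, hc', h3, h4⟩ := h1
  have h5 := proved_cD hc' h4
  rcases h3 with h3 | h3 <;> rw [h3]
  · exact h5
  · intro K _ _ e
    rw [twist_neg]
    exact h5 K e

theorem two_good {g : GaussianInt} (hg : InClass g) {K : Type} [Field K] [NumberField K]
    (e : GaussianInt ≃+* 𝓞 K) :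
    (TwoPart (twist e g) ↔ Good g) ∧
    ((Finite (twist e g).toAffine.Point ∧
      ∀ x : Pool.Agent.TH841.NF.D.Sha (twist e g), 2 • x = 0 → x = 0) ↔ Good g) := by
  have h1 : Good g → TwoPart (twist e g) := fun h => ((good_proved h).2 K e).2
  have h2 : TwoPart (twist e g) → (Finite (twist e g).toAffine.Point ∧
      ∀ x : Pool.Agent.TH841.NF.D.Sha (twist e g), 2 • x = 0 → x = 0) := fun h =>
    ⟨h.1, fun x hx => h.2.1 1 x (by rw [pow_one]; exact hx)⟩
  have h3 : (Finite (twist e g).toAffine.Point ∧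
      ∀ x : Pool.Agent.TH841.NF.D.Sha (twist e g), 2 • x = 0 → x = 0) → Good g := fun h => by
    by_contra hb
    exact conv_class hg e hb h.1 h.2
  exact ⟨⟨fun h => h3 (h2 h), h1⟩, ⟨h3, fun h => h2 (h1 h)⟩⟩

theorem proved_iff {g : GaussianInt} (hg : InClass g) : Proved g ↔ Good g := by
  constructor
  · intro h
    obtain ⟨K, i1, i2, ⟨e⟩⟩ := Pool.Agent.Run7.h843.QJ.exists_K
    exact (two_good hg e).1.1 (h K e).2
  · exact fun h => (good_proved h).2

theorem num_proved (X : ℕ) : num (fun g => InClass g ∧ Proved g) X = num Good X :=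
  num_congr (fun g => ⟨fun h => (proved_iff h.1).1 h.2, fun h => good_proved h⟩) X

/-- **Main theorem.** `K = ℚ(i)`, `E_g : y² = x³ - g² x`, `κ = ∏_{i ≥ 0} (1 - 2^{-(2i+1)})`.
(1) `0.4194 < κ < 0.4195`.
(2) For ALL squarefree `g` with odd imaginary part, `L(E_g/K, s)` is entire and the quotient
`L(E_g/K, 1) √|disc K| 4² / (Ω ∏ c_v)` is integral at all valuations above `2`; it is a unit at these if
and only if `g` is in the explicit set `Good`.
(3) For these `g` the 2-part of the strong conjecture in the form `TwoPart` (`E_g(K)` finite, `Ш(E_g/K)[2^∞] = 0`,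
`L(E_g/K, 1) ≠ 0`, the formula up to units above `2`) holds if and only if `g` is in `Good`, if and only if `E_g(K)` is
finite and `Ш(E_g/K)` has no element of order two.
(4) If `g` is in `Good` then `g` is in the class, and `E_g(K)` has exactly four elements. Such fields `K` exist.
(5) Exactly the proportion `κ` of the squarefree `g` with odd imaginary part, and exactly the
proportion `(2/3) κ` of all squarefree `g`, ordered by norm, are in the class and satisfy the 2-part in this form.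
(6) So for large `X` the 2-part of the strong conjecture holds for at least 27.96 percent of all squarefree `g` of norm at
most `X` (that is, of ALL quadratic twists of `y² = x³ - x` over `ℚ(i)`, each counted twice). -/
theorem result :
    ((0.4194 < κ ∧ κ < 0.4195) ∧
      ∃ (K : Type) (_ : Field K) (_ : NumberField K), Nonempty (GaussianInt ≃+* 𝓞 K)) ∧
    (∀ g : GaussianInt, InClass g → ∀ (K : Type) [Field K] [NumberField K] (e : GaussianInt ≃+* 𝓞 K),
      ValuePart (twist e g) 4 (Good g) ∧ (TwoPart (twist e g) ↔ Good g) ∧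
      ((Finite (twist e g).toAffine.Point ∧
        ∀ x : Pool.Agent.TH841.NF.D.Sha (twist e g), 2 • x = 0 → x = 0) ↔ Good g)) ∧
    (∀ g : GaussianInt, Good g → InClass g ∧ Proved g) ∧
    Filter.Tendsto (fun X : ℕ => (num (fun g => InClass g ∧ Proved g) X : ℝ) / num InClass X)
      Filter.atTop (nhds κ) ∧
    Filter.Tendsto (fun X : ℕ => (num (fun g => InClass g ∧ Proved g) X : ℝ) / num Squarefree X)
      Filter.atTop (nhds (2 / 3 * κ)) ∧
    (∃ X₀ : ℕ, ∀ X : ℕ, X₀ ≤ X →
      (0.2796 : ℝ) * num Squarefree X ≤ num (fun g => Squarefree g ∧ Proved g) X) := by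
  have hc : κ = Pool.Agent.Y703.CQ.c2 := rfl
  have hc2 := Pool.Agent.Y948.CQ.t_C2
  have hk1 : 0.4194 < κ := hc2.2.2.2.1
  have hgood : ∀ X : ℕ, num Good X = Run7.h26.QI.nQ Run7.h26.QI.Good2 X := fun X => by
    rw [num_congr good_iff, num_eq]
  have h5 : Filter.Tendsto (fun X : ℕ => (num Good X : ℝ) / num Squarefree X) Filter.atTop
      (nhds (2 / 3 * κ)) := by
    rw [hc]
    refine Run7.h26.QI.share_two.congr fun X => ?_
    rw [hgood, num_eq]
  refine ⟨⟨⟨hk1, hc2.2.2.2.2⟩, Pool.Agent.Run7.h843.QJ.exists_K⟩, ?_, fun g hg => good_proved hg, ?_, ?_, ?_⟩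
  · intro g hg K _ _ e
    refine ⟨?_, two_good hg e⟩
    obtain ⟨c, D, hc', h3, hD⟩ := Run7.h26.QI.exists_cD ((class_iff g).1 hg)
    have h4 := Run7.h26.QI.good2_cD hc' hD h3
    have h6 : Good g = Run7.h26.QI.GoodC c D := propext ((good_iff g).trans h4)
    rw [h6]
    have h7 := value_cD hc' hD e
    rcases h3 with h3 | h3 <;> rw [h3]
    · exact h7
    · rw [twist_neg]
      exact h7
  · rw [hc]
    refine Run7.h26.QI.share_odd.congr fun X => ?_
    rw [num_proved, hgood, num_congr class_iff, num_eq Run7.h26.QI.OddIm]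
  · refine h5.congr fun X => ?_
    rw [num_proved]
  · have h6 : (0.2796 : ℝ) < 2 / 3 * κ := by
      norm_num at hk1 ⊢
      linarith
    obtain ⟨X₀, hX₀⟩ := Filter.eventually_atTop.1 ((tendsto_order.1 h5).1 0.2796 h6)
    refine ⟨X₀, fun X hX => ?_⟩
    have h7 := hX₀ X hX
    have h8 : (num Good X : ℝ) ≤ num (fun g => Squarefree g ∧ Proved g) X := by
      have : num Good X ≤ num (fun g => Squarefree g ∧ Proved g) X :=
        num_mono (fun g hg => ⟨(good_proved hg).1.1, (good_proved hg).2⟩) X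
      exact_mod_cast this
    by_cases h9 : (num Squarefree X : ℝ) = 0
    · rw [h9, mul_zero]
      exact Nat.cast_nonneg _
    · have h10 : (0 : ℝ) < num Squarefree X := lt_of_le_of_ne (Nat.cast_nonneg _) (Ne.symm h9)
      rw [lt_div_iff₀ h10] at h7
      linarith

end Pool.Agent.Results.MP_e996df_nt.GaussianTwistsTwoPart
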