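import Pool.Agent.Run7.h555.XK.Fin
import Pool.Agent.Run7.h555.XL.Fin
import Pool.Agent.Run7.h555.XL.Dens
import Pool.Agent.Run7.h741.XK.Plc3
import Pool.Agent.Run7.h741.XL.GCT
import Pool.Agent.Run7.h238.XK.TAMK
import Pool.Agent.Run7.h238.XK.W0
import Pool.Agent.Run7.h238.XK.RK4
import Pool.Agent.Run7.h238.XL.W0
import Pool.Agent.Run7.h639.XL.TAMK
import Pool.Agent.Run7.h289.XK.M15K
import Pool.Agent.Run7.h289.XK.MANY
import Pool.Agent.Run7.h289.XK.JDENS
import Pool.Agent.Run7.h289.XL.M21K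
import Pool.Agent.Run7.h289.XL.DENS
import Pool.Agent.Run7.h289.XL.RK4
import Pool.Agent.Run7.h135.XK.Alg
import Pool.Agent.Run7.h135.XL.Alg

/-!
# The `2`-part of the conjecture for `X_0(15)` and `X_0(21)` over imaginary quadratic fields

`E` is one of the two curves without complex multiplication
* `X15 = X_0(15) : y² + x y + y = x³ + x² - 10 x - 10`, with the imaginary quadratic fields `K` of
  discriminant `13` or `37` modulo `60` (two is unramified, three splits, five is inert);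
* `X21 = X_0(21) : y² + x y = x³ - 4 x - 1`, with the imaginary quadratic fields `K` of discriminant
  `29`, `53` or `65` modulo `84` (two is unramified, seven splits, three is inert).
No condition is made on the number or the type of the ramified primes; `t` is their number.

For EVERY such pair: the equation is minimal at all finite places of `K`, the product of the Tamagawa
numbers is `16`, `L(E/K, s)` is entire, `z = L(E/K, 1) √|D| / Ω` is the rational number
`y² 4^(t-1) 16 / 8²` with an integer `y`, which is odd iff the class group of `K` has no element of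
order four; `E(K)` is finitely generated, `#Ш(E/K)[2] 2^rank = 4^(t-1)`, and the rank is at most twice
the `4`-rank of the class group; and the class group has no element of order four iff the statements
(i), (ii), (iii) of the page for `p = 2` hold with order and rank zero, `#E(K) = 8` and `Ш(E/K)[2^∞]` of
exponent two and order `4^(t-1)` (`TwoPart`). For each of the two curves the proportion of the fields
with `TwoPart` is exactly `∏_{i ≥ 1} (1 - 2^{-i}) = 0.2888...`, also with `t ≥ k` for any `k`, and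
the events for finitely many multipliers are independent.
-/

set_option autoImplicit false

open NumberField NumberField.InfinitePlace IsDedekindDomain WeierstrassCurve MeasureTheory Filter
  Topology

namespace Pool.Agent.Results.MP_e996df_nt.ImaginaryQuadraticX15X21

open Pool.Agent.TH841.NF.D (Sha)
open Pool.Agent.TH841.SH.D (Pt)
open Pool.Agent.Y682 (MP)

/-- The curve `X_0(15) : y² + x y + y = x³ + x² - 10 x - 10`. -/
def X15 : WeierstrassCurve ℤ := ⟨1, 1, 1, -10, -10⟩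

/-- The curve `X_0(21) : y² + x y = x³ - 4 x - 1`. -/
def X21 : WeierstrassCurve ℤ := ⟨1, 0, 0, -4, -1⟩

/-- The curve given by the equation of `W` over the ring `R`. -/
abbrev base (W : WeierstrassCurve ℤ) (R : Type) [CommRing R] : WeierstrassCurve R :=
  W.map (Int.castRingHom R)

section

variable {K : Type} [Field K] [NumberField K]

/-- The equation is minimal at the finite place `v` of `K`: no change of variables over `K` that
keeps the coefficients integral at `v` decreases the order of the discriminant. -/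
def MinimalAt (W : WeierstrassCurve K) (v : HeightOneSpectrum (𝓞 K)) : Prop :=
  ∀ C : VariableChange K, v.valuation K (C • W).a₁ ≤ 1 → v.valuation K (C • W).a₂ ≤ 1 →
    v.valuation K (C • W).a₃ ≤ 1 → v.valuation K (C • W).a₄ ≤ 1 → v.valuation K (C • W).a₆ ≤ 1 →
    v.valuation K (C • W).Δ ≤ v.valuation K W.Δ

/-- `W⁰(K_v)`, the group of the points of `W` over the completion `K_v` with nonsingular reduction:
the point at infinity and the points `(x, y)` where `x` is not integral, or one of the partial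
derivatives of `y² + a₁ x y + a₃ y - x³ - a₂ x² - a₄ x - a₆` is a unit at `(x, y)`.
Here `Pt W K_v` is the group of the points of `W` over `K_v`. -/
noncomputable def nonsing (W : WeierstrassCurve K) (v : HeightOneSpectrum (𝓞 K)) :
    AddSubgroup (Pt W (v.adicCompletion K)) :=
  AddSubgroup.closure {P | ∀ x y h, P = Affine.Point.some x y h →
    1 < Valued.v x ∨
    Valued.v ((W.baseChange (v.adicCompletion K)).a₁ * y -
      (3 * x ^ 2 + 2 * (W.baseChange (v.adicCompletion K)).a₂ * x +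
        (W.baseChange (v.adicCompletion K)).a₄)) = 1 ∨
    Valued.v (2 * y + (W.baseChange (v.adicCompletion K)).a₁ * x +
      (W.baseChange (v.adicCompletion K)).a₃) = 1}

/-- The Tamagawa number `c_v = [W(K_v) : W⁰(K_v)]` of a minimal equation. -/
noncomputable def c (W : WeierstrassCurve K) (v : HeightOneSpectrum (𝓞 K)) : ℕ :=
  (nonsing W v).index

/-- The product of the Tamagawa numbers. -/
noncomputable def Tam (W : WeierstrassCurve K) : ℕ := ∏ᶠ v : HeightOneSpectrum (𝓞 K), c W v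

/-- The 2-primary part of the Tate-Shafarevich group over `K`. -/
def Sha2 (W : WeierstrassCurve K) : Set (Sha W) := {x | ∃ n : ℕ, 2 ^ n • x = 0}

end

/-- `4 x³ + b₂ x² + 2 b₄ x + b₆ = (2 y + a₁ x + a₃)²`. -/
def cubic (W : WeierstrassCurve ℤ) {R : Type} [CommRing R] (x : R) : R :=
  4 * x ^ 3 + W.b₂ * x ^ 2 + 2 * W.b₄ * x + W.b₆

/-- `∫_{W(ℝ)} |ω|` with `ω = dx / (2 y + a₁ x + a₃)`, as an integral over `x`: two real points lie
over each `x` with `cubic x > 0`. -/
noncomputable def realPeriod (W : WeierstrassCurve ℤ) : ℝ :=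
  2 * ∫ x in {x : ℝ | 0 < cubic W x}, 1 / √(cubic W x)

/-- `2 ∫_{W(ℂ)} |ω ∧ ω̄|`, where `|ω ∧ ω̄| = du dv` in a local parameter `z = u + i v` with
`dz = ω`, as an integral over `x`: two points lie over a general `x`, and `|ω ∧ ω̄|` is the area
element of the plane of `x` divided by `|cubic x|`. -/
noncomputable def complexPeriod (W : WeierstrassCurve ℤ) : ℝ := 2 * (2 * ∫ x : ℂ, 1 / ‖cubic W x‖)

/-- The global period of a curve with an equation that is minimal at all finite places of `K`. -/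
noncomputable def Omega (K : Type) [Field K] [NumberField K] (W : WeierstrassCurve ℤ) : ℝ :=
  realPeriod W ^ nrRealPlaces K * complexPeriod W ^ nrComplexPlaces K

/-- The pairs `(E, K)`: `K` is imaginary quadratic, and `E = X15` and `Disc K` is `13` or `37` modulo
`60`, or `E = X21` and `Disc K` is `29`, `53` or `65` modulo `84`. -/
def Fam (W : WeierstrassCurve ℤ) (K : Type) [Field K] [NumberField K] : Prop :=
  Module.finrank ℚ K = 2 ∧ discr K < 0 ∧
    ((W = X15 ∧ (discr K % 60 = 13 ∨ discr K % 60 = 37)) ∨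
      (W = X21 ∧ (discr K % 84 = 29 ∨ discr K % 84 = 53 ∨ discr K % 84 = 65)))

/-- The number of the prime divisors of the discriminant. -/
noncomputable def ram (K : Type) [Field K] [NumberField K] : ℕ :=
  (discr K).natAbs.primeFactors.card

/-- The class group of `K` has no element of order four. -/
def NoFour (K : Type) [Field K] [NumberField K] : Prop :=
  ∀ c : ClassGroup (𝓞 K), c ^ 4 = 1 → c ^ 2 = 1

/-- `k` is the `4`-rank of the class group of `K`: the squares of the elements killed by four form a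
group of order `2 ^ k`. -/
def FourRank (K : Type) [Field K] [NumberField K] (k : ℕ) : Prop :=
  Nat.card {y : ClassGroup (𝓞 K) // ∃ x : ClassGroup (𝓞 K), x ^ 4 = 1 ∧ x ^ 2 = y} = 2 ^ k

/-- `F` is the entire continuation of the L-function of `W` over `K`. -/
def IsLFun (W : WeierstrassCurve ℤ) (K : Type) [Field K] [NumberField K] (F : ℂ → ℂ) : Prop :=
  Differentiable ℂ F ∧ ∀ s : ℂ, 2 < s.re → F s = (base W K).LSeries s

/-- The statements of the page for `p = 2`, with order zero: the L-function is entire,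
(i) its order at `s = 1` is zero and is the rank of `W(K)`, which is finite,
(ii) the 2-primary part of `Ш(W/K)` is finite,
(iii) `z = L(W/K, 1) √|Disc K| / Ω` is a rational number with the same 2-adic valuation as
`#Ш(W/K)[2^∞] Tam / #W(K)²`. -/
def BSDTwo (W : WeierstrassCurve ℤ) (K : Type) [Field K] [NumberField K] : Prop :=
  ∃ F : ℂ → ℂ, IsLFun W K F ∧
    (analyticOrderAt F 1 = 0 ∧ Module.finrank ℤ (MP (base W K)) = 0 ∧ Finite (MP (base W K))) ∧
    (Sha2 (base W K)).Finite ∧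
    ∃ z : ℚ, F 1 * ((√|(discr K : ℝ)| : ℝ) : ℂ) = (z : ℂ) * ((Omega K W : ℝ) : ℂ) ∧
      padicValRat 2 z = padicValRat 2 ((Nat.card (Sha2 (base W K)) : ℚ) * (Tam (base W K) : ℚ) /
        (Nat.card (base W K).toAffine.Point : ℚ) ^ 2)

/-- `BSDTwo`, and `W(K)` has order `8` and the 2-primary part of `Ш(W/K)` is killed by two and has
order `4 ^ (t - 1)`. -/
def TwoPart (W : WeierstrassCurve ℤ) (K : Type) [Field K] [NumberField K] : Prop :=
  BSDTwo W K ∧ Nat.card (base W K).toAffine.Point = 8 ∧ (∀ x ∈ Sha2 (base W K), 2 • x = 0) ∧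
    Nat.card (Sha2 (base W K)) = 4 ^ (ram K - 1)

/-- The number of the fields `K` with `|Disc K| ≤ X` such that `(W, K)` is one of the pairs and has
the property `Q` (an imaginary quadratic field is determined by its discriminant). -/
noncomputable def num (W : WeierstrassCurve ℤ)
    (Q : ∀ (K : Type) [Field K] [NumberField K], Prop) (X : ℕ) : ℕ :=
  Nat.card {n : ℕ // n ≤ X ∧ ∃ (K : Type) (_ : Field K) (_ : NumberField K),
    Fam W K ∧ discr K = -(n : ℤ) ∧ Q K}

/-- `L` is the quadratic field `ℚ(√(a Disc K))`. -/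
def IsTwist (a : ℕ) (K : Type) [Field K] [NumberField K] (L : Type) [Field L] [NumberField L] :
    Prop :=
  Module.finrank ℚ L = 2 ∧ ∃ r : L, r ^ 2 = (a : L) * (discr K : L)

/-- `TwoPart` holds over the field `ℚ(√(a Disc K))`. -/
def TwoPartTwist (W : WeierstrassCurve ℤ) (a : ℕ) (K : Type) [Field K] [NumberField K] : Prop :=
  ∃ (L : Type) (_ : Field L) (_ : NumberField L), IsTwist a K L ∧ TwoPart W L

/-- the constant `0.2888...` -/
noncomputable def eta : ℝ := ∏' i : ℕ, (1 - (1 / 2 : ℝ) ^ (i + 1))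

section proof

open Run7.h555.XK (QF)
open Pool.Agent.N969.P15 (Qc)

/-- the data of one of the two curves -/
structure Dat (W : WeierstrassCurve ℤ) (C : ℕ → Prop) : Prop where
  ex : ∀ (K : Type) [Field K] [NumberField K], Fam W K →
    ∃ n : ℕ, QF K n ∧ C n ∧ discr K = -(n : ℤ)
  exK : ∀ n : ℕ, C n → ∃ (K : Type) (_ : Field K) (_ : NumberField K),
    Fam W K ∧ QF K n ∧ discr K = -(n : ℤ)
  dsc : ∀ (K : Type) [Field K] [NumberField K] (n : ℕ), QF K n → C n → discr K = -(n : ℤ)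
  sqf : ∀ n : ℕ, C n → Squarefree n
  min : ∀ (K : Type) [Field K] [NumberField K] (n : ℕ), QF K n → C n →
    ∀ v : HeightOneSpectrum (𝓞 K), MinimalAt (base W K) v
  tam : ∀ (K : Type) [Field K] [NumberField K] (n : ℕ), QF K n → C n → Tam (base W K) = 16
  om : ∀ (K : Type) [Field K] [NumberField K] (n : ℕ), QF K n → C n → 0 < Omega K W
  val : ∀ (K : Type) [Field K] [NumberField K] (n : ℕ), QF K n → C n → ∃ F : ℂ → ℂ,
    IsLFun W K F ∧ ∃ y : ℤ, (Odd y ↔ Qc n) ∧ F 1 * (((√|(discr K : ℝ)| : ℝ) : ℂ) * 8 ^ 2) =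
      (y : ℂ) ^ 2 * 4 ^ (n.primeFactors.card - 1) *
        (((Omega K W : ℝ) : ℂ) * (Tam (base W K) : ℂ))
  alg : ∀ (K : Type) [Field K] [NumberField K] (n : ℕ), QF K n → C n → Qc n →
    Nat.card (base W K).toAffine.Point = 8 ∧
    (∀ (k : ℕ) (x : Sha (base W K)), 2 ^ k • x = 0 → 2 • x = 0) ∧
    Nat.card (Sha2 (base W K)) = 4 ^ (n.primeFactors.card - 1)
  sel : ∀ (K : Type) [Field K] [NumberField K] (n : ℕ), QF K n → C n →
    Module.Finite ℤ (MP (base W K)) ∧
    Nat.card {x : Sha (base W K) // 2 • x = 0} * 2 ^ Module.finrank ℤ (MP (base W K)) =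
      4 ^ (n.primeFactors.card - 1)
  rk : ∀ (K : Type) [Field K] [NumberField K] (n : ℕ), QF K n → C n →
    ∃ k : ℕ, FourRank K k ∧ Module.finrank ℤ (MP (base W K)) ≤ 2 * k
  nof : ∀ (K : Type) [Field K] [NumberField K] (n : ℕ), QF K n → C n → (Qc n ↔ NoFour K)
  two : ∀ (K : Type) [Field K] [NumberField K] (n : ℕ), QF K n → C n →
    Nat.card {c : ClassGroup (𝓞 K) // c ^ 2 = 1} = 2 ^ (n.primeFactors.card - 1)

theorem dat15 : Dat X15 Run7.h555.XK.Cl := by
  have hp : ∀ (K : Type) [Field K] [NumberField K] (n : ℕ), QF K n → Run7.h555.XK.Cl n →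
      Run7.h555.XK.Pk K n := fun K _ _ n hK hn =>
    Run7.h555.XK.pack Run7.h741.XK.Plc.t_PLC Pool.Agent.Run7.h289.XK.t_M15K Run7.h238.XK.t_W0
      Run7.h238.XK.t_MINK Run7.h238.XK.t_TAMK
      (fun K _ _ n hK hn hq => by
        rw [Run7.h555.XK.base_eq']
        exact Run7.h135.XK.alg_fin hn hq hK.two hK.sq) hK hn
  have hb : ∀ (K : Type) [Field K] [NumberField K],
      base X15 K = (⟨1, 1, 1, -10, -10⟩ : WeierstrassCurve K) := fun K _ _ =>
    Run7.h555.XK.base_eq' K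
  refine
    { ex := fun K _ _ hK => ?_
      exK := fun n hn => ?_
      dsc := fun K _ _ n hK hn => (Run7.h555.XK.t_DSC K n hK hn).1
      sqf := fun n hn => hn.1
      min := fun K _ _ n hK hn => (hp K n hK hn).min
      tam := fun K _ _ n hK hn => (hp K n hK hn).tam
      om := fun K _ _ n hK hn => (hp K n hK hn).om
      val := fun K _ _ n hK hn => ?_
      alg := fun K _ _ n hK hn hq => (hp K n hK hn).alg hq
      sel := fun K _ _ n hK hn => ?_
      rk := fun K _ _ n hK hn => ?_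
      nof := fun K _ _ n hK hn => Run7.h555.XK.no_four hK hn
      two := fun K _ _ n hK hn => Run7.h555.XK.card_two hK hn }
  · obtain ⟨h1, h2, h3⟩ := hK
    refine Run7.h555.XK.ClK.ex (K := K) ⟨h1, h2, ?_⟩
    rcases h3 with ⟨-, h3⟩ | ⟨h3, -⟩
    · exact h3
    · exact absurd (congrArg WeierstrassCurve.a₂ h3) (by decide)
  · obtain ⟨K, i1, i2, ⟨h1, h2, h3⟩, h4, h5⟩ := Run7.h555.XK.Cl.exK hn
    exact ⟨K, i1, i2, ⟨h1, h2, Or.inl ⟨rfl, h3⟩⟩, h4, h5⟩
  · obtain ⟨F, hF, hs, y, hy, hv⟩ := (hp K n hK hn).val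
    exact ⟨F, ⟨hF, hs⟩, y, hy, hv⟩
  · rw [hb]
    exact Run7.h135.XK.sel_fin hn hK.two hK.sq
  · obtain ⟨r, hr⟩ := hK.sq
    obtain ⟨k, h1, -, -, h4⟩ := Run7.h238.XK.rk4 Run7.h135.XK.t_FQ hK hn
      (Run7.h135.XK.qk_of hn hK.two hr)
    refine ⟨k, h1, ?_⟩
    rw [hb]
    exact h4

theorem dat21 : Dat X21 Run7.h555.XL.Cl := by
  have hp : ∀ (K : Type) [Field K] [NumberField K] (n : ℕ), QF K n → Run7.h555.XL.Cl n →
      Run7.h555.XL.Pk K n := fun K _ _ n hK hn =>
    Run7.h555.XL.pack Run7.h741.XK.Plc.t_PLC Pool.Agent.Run7.h289.XL.t_M21K Run7.h741.XL.t_GCT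
      Run7.h238.XL.t_W0 Run7.h639.XL.t_MINK Run7.h639.XL.t_TAMK
      (fun K _ _ n hK hn hq => by
        rw [Run7.h555.XL.base_eq']
        exact Run7.h135.XL.alg_fin hn hq hK.two hK.sq) hK hn
  have hb : ∀ (K : Type) [Field K] [NumberField K],
      base X21 K = (⟨1, 0, 0, -4, -1⟩ : WeierstrassCurve K) := fun K _ _ =>
    Run7.h555.XL.base_eq' K
  refine
    { ex := fun K _ _ hK => ?_
      exK := fun n hn => ?_
      dsc := fun K _ _ n hK hn => (Run7.h555.XL.t_DSC K n hK hn).1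
      sqf := fun n hn => hn.1
      min := fun K _ _ n hK hn => (hp K n hK hn).min
      tam := fun K _ _ n hK hn => (hp K n hK hn).tam
      om := fun K _ _ n hK hn => (hp K n hK hn).om
      val := fun K _ _ n hK hn => ?_
      alg := fun K _ _ n hK hn hq => (hp K n hK hn).alg hq
      sel := fun K _ _ n hK hn => ?_
      rk := fun K _ _ n hK hn => ?_
      nof := fun K _ _ n hK hn => Run7.h555.XL.no_four hK hn
      two := fun K _ _ n hK hn => Run7.h555.XL.card_two hK hn }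
  · obtain ⟨h1, h2, h3⟩ := hK
    refine Run7.h555.XL.ClK.ex (K := K) ⟨h1, h2, ?_⟩
    rcases h3 with ⟨h3, -⟩ | ⟨-, h3⟩
    · exact absurd (congrArg WeierstrassCurve.a₂ h3) (by decide)
    · exact h3
  · obtain ⟨K, i1, i2, ⟨h1, h2, h3⟩, h4, h5⟩ := Run7.h555.XL.Cl.exK hn
    exact ⟨K, i1, i2, ⟨h1, h2, Or.inr ⟨rfl, h3⟩⟩, h4, h5⟩
  · obtain ⟨F, hF, hs, y, hy, hv⟩ := (hp K n hK hn).val
    exact ⟨F, ⟨hF, hs⟩, y, hy, hv⟩
  · rw [hb]
    exact Run7.h135.XL.sel_fin hn hK.two hK.sq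
  · obtain ⟨r, hr⟩ := hK.sq
    obtain ⟨k, h1, -, -, h4⟩ := Pool.Agent.Run7.h289.XL.rk4 Run7.h135.XL.t_FQ hK hn
      (Run7.h135.XL.qk_of hn hK.two hr)
    refine ⟨k, h1, ?_⟩
    rw [hb]
    exact h4

theorem val_iff {y : ℤ} (hy : y ≠ 0) {w : ℚ} (hw : w ≠ 0) :
    padicValRat 2 ((y : ℚ) ^ 2 * w) = padicValRat 2 w ↔ Odd y := by
  have : Fact (Nat.Prime 2) := ⟨Nat.prime_two⟩
  have hyq : (y : ℚ) ≠ 0 := by exact_mod_cast hy
  rw [padicValRat.mul (pow_ne_zero 2 hyq) hw, padicValRat.pow, padicValRat.of_int]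
  have key : padicValInt 2 y = 0 ↔ Odd y := by
    unfold padicValInt
    rw [padicValNat.eq_zero_iff, ← Int.natAbs_odd, ← Nat.not_even_iff_odd, even_iff_two_dvd]
    constructor
    · rintro (h | h | h)
      · norm_num at h
      · exact absurd (Int.natAbs_eq_zero.1 h) hy
      · exact h
    · intro h
      exact Or.inr (Or.inr h)
  rw [← key]
  constructor
  · intro h
    push_cast at h
    omega
  · intro h
    rw [h]
    push_cast
    ring

variable {W : WeierstrassCurve ℤ} {C : ℕ → Prop} {K : Type} [Field K] [NumberField K] {n : ℕ}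

theorem ram_eq (hd : discr K = -(n : ℤ)) : ram K = n.primeFactors.card := by
  unfold ram
  rw [hd, Int.natAbs_neg, Int.natAbs_natCast]

/-- the value as a rational number -/
theorem Dat.val' (D : Dat W C) (hK : QF K n) (hn : C n) : ∃ F : ℂ → ℂ, IsLFun W K F ∧
    ∃ y : ℤ, (Odd y ↔ Qc n) ∧ F 1 * ((√|(discr K : ℝ)| : ℝ) : ℂ) =
      (((y : ℚ) ^ 2 * (4 ^ (n.primeFactors.card - 1) * 16 / 8 ^ 2) : ℚ) : ℂ) *
        ((Omega K W : ℝ) : ℂ) := by
  obtain ⟨F, hF, y, hy, hv⟩ := D.val K n hK hn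
  refine ⟨F, hF, y, hy, ?_⟩
  rw [D.tam K n hK hn] at hv
  push_cast at hv ⊢
  linear_combination (1 / 64 : ℂ) * hv

theorem om_ne (D : Dat W C) (hK : QF K n) (hn : C n) : ((Omega K W : ℝ) : ℂ) ≠ 0 := by
  exact_mod_cast (D.om K n hK hn).ne'

theorem sq_ne : ((√|(discr K : ℝ)| : ℝ) : ℂ) ≠ 0 := by
  have h : √|(discr K : ℝ)| ≠ 0 := by
    refine (Real.sqrt_pos.2 (abs_pos.2 ?_)).ne'
    exact_mod_cast discr_ne_zero K
  exact_mod_cast h

theorem order_iff {F : ℂ → ℂ} (hF : Differentiable ℂ F) : analyticOrderAt F 1 = 0 ↔ F 1 ≠ 0 :=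
  (hF.analyticAt 1).analyticOrderAt_eq_zero

/-- the 2-part for one field -/
theorem Dat.twoPart_iff (D : Dat W C) (hK : QF K n) (hn : C n) : TwoPart W K ↔ Qc n := by
  have hd := D.dsc K n hK hn
  have hT := D.tam K n hK hn
  have hOm := om_ne D hK hn
  obtain ⟨F, ⟨hF, hs⟩, y, hy, hv⟩ := D.val' hK hn
  have hw : (4 ^ (n.primeFactors.card - 1) * 16 / 8 ^ 2 : ℚ) ≠ 0 := by positivity
  constructor
  · rintro ⟨⟨F', ⟨hF', hs'⟩, ⟨ho, -, -⟩, -, z, hz, hval⟩, h8, -, h4⟩
    rw [← hy]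
    have e1 : F 1 = F' 1 := Run7.h555.XK.unique_ext hF hF' fun s h => by
      rw [hs s h, hs' s h]
    have h0 : F 1 ≠ 0 := by
      rw [e1]
      exact (order_iff hF').1 ho
    have ez : z = (y : ℚ) ^ 2 * (4 ^ (n.primeFactors.card - 1) * 16 / 8 ^ 2) := by
      have h5 : (z : ℂ) * ((Omega K W : ℝ) : ℂ) =
          (((y : ℚ) ^ 2 * (4 ^ (n.primeFactors.card - 1) * 16 / 8 ^ 2) : ℚ) : ℂ) *
            ((Omega K W : ℝ) : ℂ) := by
        rw [← hz, ← hv, e1]
      exact_mod_cast mul_right_cancel₀ hOm h5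
    have hy0 : y ≠ 0 := by
      rintro rfl
      apply mul_ne_zero h0 (sq_ne (K := K))
      rw [hv]
      push_cast
      ring
    rw [ram_eq hd] at h4
    rw [h8, h4, hT, ez] at hval
    push_cast at hval
    exact (val_iff hy0 hw).1 hval
  · intro hq
    obtain ⟨a1, a2, a3⟩ := D.alg K n hK hn hq
    obtain ⟨b1, b2⟩ := D.sel K n hK hn
    have hodd : Odd y := hy.2 hq
    have hy0 : y ≠ 0 := by
      rintro rfl
      exact absurd hodd (by decide)
    have h0 : F 1 ≠ 0 := by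
      intro h0
      rw [h0, zero_mul] at hv
      have hyq : (y : ℚ) ≠ 0 := by exact_mod_cast hy0
      have h5 : (((y : ℚ) ^ 2 * (4 ^ (n.primeFactors.card - 1) * 16 / 8 ^ 2) : ℚ) : ℂ) ≠ 0 :=
        Rat.cast_ne_zero.2 (mul_ne_zero (pow_ne_zero 2 hyq) hw)
      exact mul_ne_zero h5 hOm hv.symm
    have hfin : Finite (MP (base W K)) :=
      Nat.finite_of_card_ne_zero (α := (base W K).toAffine.Point) (by rw [a1]; norm_num)
    have hS : (Sha2 (base W K)).Finite := by
      have : Finite (Sha2 (base W K)) := Nat.finite_of_card_ne_zero (by rw [a3]; positivity)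
      exact Set.toFinite _
    have hr : Module.finrank ℤ (MP (base W K)) = 0 := by
      have e : Nat.card {x : Sha (base W K) // 2 • x = 0} = 4 ^ (n.primeFactors.card - 1) := by
        rw [← a3]
        refine Nat.card_congr (Equiv.subtypeEquivRight fun x => ⟨fun h => ⟨1, by rwa [pow_one]⟩, ?_⟩)
        rintro ⟨k, hk⟩
        exact a2 k x hk
      rw [e] at b2
      have h5 : 2 ^ Module.finrank ℤ (MP (base W K)) = 1 :=
        Nat.eq_of_mul_eq_mul_left (by positivity : 0 < 4 ^ (n.primeFactors.card - 1))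
          (by rw [b2, mul_one])
      by_contra hne
      exact absurd h5 (Nat.one_lt_two_pow hne).ne'
    refine ⟨⟨F, ⟨hF, hs⟩, ⟨(order_iff hF).2 h0, hr, hfin⟩, hS, _, hv, ?_⟩, a1, ?_, ?_⟩
    · rw [a1, a3, hT]
      push_cast
      exact (val_iff hy0 hw).2 hodd
    · rintro x ⟨k, hk⟩
      exact a2 k x hk
    · rw [ram_eq hd]
      exact a3

/-- counting -/
theorem Dat.num_eq (D : Dat W C) {Q : ∀ (K : Type) [Field K] [NumberField K], Prop}
    {Q' : ℕ → Prop}
    (h : ∀ (K : Type) [Field K] [NumberField K] (n : ℕ), QF K n → C n → discr K = -(n : ℤ) →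
      (Q K ↔ Q' n)) (X : ℕ) :
    num W Q X = Nat.card {n : ℕ // n ≤ X ∧ C n ∧ Q' n} := by
  unfold num
  refine Nat.card_congr (Equiv.subtypeEquivRight fun n => and_congr_right fun _ => ?_)
  constructor
  · rintro ⟨K, i1, i2, hK, hd, hQ⟩
    obtain ⟨m, h1, h2, h3⟩ := D.ex K hK
    have h4 : m = n := by
      rw [h3] at hd
      omega
    subst h4
    exact ⟨h2, (h K m h1 h2 h3).1 hQ⟩
  · rintro ⟨hn, hQ⟩
    obtain ⟨K, i1, i2, h1, h2, h3⟩ := D.exK n hn
    exact ⟨K, i1, i2, h1, h3, (h K n h2 hn h3).2 hQ⟩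

theorem Dat.num_all (D : Dat W C) (X : ℕ) :
    num W (fun _ _ _ => True) X = Nat.card {n : ℕ // n ≤ X ∧ C n} := by
  rw [D.num_eq (Q := fun _ _ _ => True) (Q' := fun _ => True) (fun _ _ _ _ _ _ _ => Iff.rfl) X]
  refine Nat.card_congr (Equiv.subtypeEquivRight fun n => ?_)
  rw [and_true]

open Pool.Agent.Run7.h238.J (tw)

/-- the 2-part for the twist of the field -/
theorem Dat.twist_iff (D : Dat W C) {a : ℕ} (hm : C (tw a n)) (hn : C n)
    (hd : discr K = -(n : ℤ)) : TwoPartTwist W a K ↔ Qc (tw a n) := by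
  have hmul := Pool.Agent.Run7.h289.D18.tw_mul a n
  have hg : Nat.gcd a n ≠ 0 := fun h0 =>
    (D.sqf n hn).ne_zero (Nat.eq_zero_of_gcd_eq_zero_right h0)
  have key : ∀ (L : Type) [Field L] [NumberField L], IsTwist a K L → QF L (tw a n) := by
    intro L _ _ h
    obtain ⟨h2, r, hr⟩ := h
    refine ⟨h2, r / (Nat.gcd a n : L), ?_⟩
    have hgL : ((Nat.gcd a n : ℕ) : L) ≠ 0 := by exact_mod_cast hg
    have hmulL : ((tw a n : ℕ) : L) * ((Nat.gcd a n : ℕ) : L) ^ 2 =
        (a : L) * (n : L) := by exact_mod_cast congrArg (Nat.cast (R := L)) hmul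
    rw [div_pow, hr, hd, div_eq_iff (pow_ne_zero 2 hgL)]
    push_cast
    linear_combination hmulL
  constructor
  · rintro ⟨L, i1, i2, hL, h2⟩
    exact (D.twoPart_iff (key L hL) hm).1 h2
  · intro hq
    obtain ⟨L, i1, i2, -, hQ, hdL⟩ := D.exK _ hm
    refine ⟨L, i1, i2, ⟨hQ.two, ?_⟩, (D.twoPart_iff hQ hm).2 hq⟩
    obtain ⟨r, hr⟩ := hQ.sq
    refine ⟨(Nat.gcd a n : L) * r, ?_⟩
    have hmulL : ((tw a n : ℕ) : L) * ((Nat.gcd a n : ℕ) : L) ^ 2 =
        (a : L) * (n : L) := by exact_mod_cast congrArg (Nat.cast (R := L)) hmul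
    rw [mul_pow, hr, hd]
    push_cast
    linear_combination -hmulL

/-- the proportions -/
theorem Dat.laws (D : Dat W C) {Mu : ℕ → Prop} (hMu : ∀ a n : ℕ, Mu a → C n → C (tw a n))
    (h1 : ∀ k : ℕ, Tendsto (fun X : ℕ =>
      (Nat.card {n : ℕ // n ≤ X ∧ C n ∧ Qc n ∧ k ≤ n.primeFactors.card} : ℝ) /
        (Nat.card {n : ℕ // n ≤ X ∧ C n} : ℝ)) atTop (𝓝 eta))
    (h2 : ∀ (M : ℕ) (a : Fin M → ℕ), Function.Injective a → (∀ i, Mu (a i)) →
      ∀ S : Finset (Fin M), Tendsto (fun X : ℕ =>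
        (Nat.card {n : ℕ // n ≤ X ∧ C n ∧ ∀ i, Qc (tw (a i) n) ↔ i ∈ S} : ℝ) /
          (Nat.card {n : ℕ // n ≤ X ∧ C n} : ℝ)) atTop
            (𝓝 (eta ^ S.card * (1 - eta) ^ (M - S.card)))) :
    (∀ k : ℕ, Tendsto (fun X : ℕ => (num W (fun K _ _ => TwoPart W K ∧ k ≤ ram K) X : ℝ) /
      (num W (fun _ _ _ => True) X : ℝ)) atTop (𝓝 eta)) ∧
    ∀ (M : ℕ) (a : Fin M → ℕ), Function.Injective a → (∀ i, Mu (a i)) →
      ∀ S : Finset (Fin M), Tendsto (fun X : ℕ =>
        (num W (fun K _ _ => ∀ i, TwoPartTwist W (a i) K ↔ i ∈ S) X : ℝ) /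
          (num W (fun _ _ _ => True) X : ℝ)) atTop
            (𝓝 (eta ^ S.card * (1 - eta) ^ (M - S.card))) := by
  constructor
  · intro k
    refine (h1 k).congr fun X => ?_
    rw [D.num_all X, D.num_eq (Q := fun K _ _ => TwoPart W K ∧ k ≤ ram K)
      (Q' := fun n => Qc n ∧ k ≤ n.primeFactors.card)
      (fun K _ _ n hQ hn hd => by rw [D.twoPart_iff hQ hn, ram_eq hd]) X]
  · intro M a ha hM S
    refine (h2 M a ha hM S).congr fun X => ?_
    rw [D.num_all X, D.num_eq (Q := fun K _ _ => ∀ i, TwoPartTwist W (a i) K ↔ i ∈ S)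
      (Q' := fun n => ∀ i, Qc (tw (a i) n) ↔ i ∈ S)
      (fun K _ _ n hQ hn hd => forall_congr' fun i => by
        rw [D.twist_iff (hMu _ _ (hM i) hn) hn hd]) X]

/-- everything for one field -/
theorem Dat.field (D : Dat W C) (hK : Fam W K) :
    (∀ v : HeightOneSpectrum (𝓞 K), MinimalAt (base W K) v) ∧
      Tam (base W K) = 16 ∧
      Nat.card {c : ClassGroup (𝓞 K) // c ^ 2 = 1} = 2 ^ (ram K - 1) ∧
      (∃ F : ℂ → ℂ, IsLFun W K F ∧ ∃ y : ℤ, (Odd y ↔ NoFour K) ∧
        F 1 * ((√|(discr K : ℝ)| : ℝ) : ℂ) =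
          (((y : ℚ) ^ 2 * (4 ^ (ram K - 1) * 16 / 8 ^ 2) : ℚ) : ℂ) * ((Omega K W : ℝ) : ℂ)) ∧
      Module.Finite ℤ (MP (base W K)) ∧
      Nat.card {x : Sha (base W K) // 2 • x = 0} * 2 ^ Module.finrank ℤ (MP (base W K)) =
        4 ^ (ram K - 1) ∧
      (∃ k : ℕ, FourRank K k ∧ Module.finrank ℤ (MP (base W K)) ≤ 2 * k) ∧
      (TwoPart W K ↔ NoFour K) := by
  obtain ⟨n, hQ, hn, hd⟩ := D.ex K hK
  have hno := D.nof K n hQ hn
  obtain ⟨s1, s2⟩ := D.sel K n hQ hn
  obtain ⟨F, hF, y, hy, hv⟩ := D.val' hQ hn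
  rw [ram_eq hd]
  exact ⟨D.min K n hQ hn, D.tam K n hQ hn, D.two K n hQ hn, ⟨F, hF, y, hy.trans hno, hv⟩, s1, s2,
    D.rk K n hQ hn, (D.twoPart_iff hQ hn).trans hno⟩

end proof

/-- **The 2-part of the conjecture of Birch and Swinnerton-Dyer for `X_0(15)` and `X_0(21)` over
imaginary quadratic fields.** -/
theorem result :
    (∀ (W : WeierstrassCurve ℤ) (K : Type) [Field K] [NumberField K], Fam W K →
      (∀ v : HeightOneSpectrum (𝓞 K), MinimalAt (base W K) v) ∧
      Tam (base W K) = 16 ∧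
      Nat.card {c : ClassGroup (𝓞 K) // c ^ 2 = 1} = 2 ^ (ram K - 1) ∧
      (∃ F : ℂ → ℂ, IsLFun W K F ∧ ∃ y : ℤ, (Odd y ↔ NoFour K) ∧
        F 1 * ((√|(discr K : ℝ)| : ℝ) : ℂ) =
          (((y : ℚ) ^ 2 * (4 ^ (ram K - 1) * 16 / 8 ^ 2) : ℚ) : ℂ) * ((Omega K W : ℝ) : ℂ)) ∧
      Module.Finite ℤ (MP (base W K)) ∧
      Nat.card {x : Sha (base W K) // 2 • x = 0} * 2 ^ Module.finrank ℤ (MP (base W K)) =
        4 ^ (ram K - 1) ∧
      (∃ k : ℕ, FourRank K k ∧ Module.finrank ℤ (MP (base W K)) ≤ 2 * k) ∧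
      (TwoPart W K ↔ NoFour K)) ∧
    (∀ W : WeierstrassCurve ℤ, W = X15 ∨ W = X21 →
      (∀ k : ℕ, Tendsto (fun X : ℕ => (num W (fun K _ _ => TwoPart W K ∧ k ≤ ram K) X : ℝ) /
        (num W (fun _ _ _ => True) X : ℝ)) atTop (𝓝 eta)) ∧
      ∀ (M : ℕ) (a : Fin M → ℕ), Function.Injective a →
        (∀ i, Squarefree (a i) ∧ a i % 12 = 1 ∧ (W = X15 → a i % 5 = 1 ∨ a i % 5 = 4) ∧
          (W = X21 → a i % 7 = 1 ∨ a i % 7 = 2 ∨ a i % 7 = 4)) →
        ∀ S : Finset (Fin M), Tendsto (fun X : ℕ =>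
          (num W (fun K _ _ => ∀ i, TwoPartTwist W (a i) K ↔ i ∈ S) X : ℝ) /
            (num W (fun _ _ _ => True) X : ℝ)) atTop
              (𝓝 (eta ^ S.card * (1 - eta) ^ (M - S.card)))) ∧
    0.2887 < eta ∧ eta < 0.2889 ∧
    Tendsto (fun X : ℕ => (num X15 (fun _ _ _ => True) X : ℝ) / X) atTop
      (𝓝 (5 / (16 * Real.pi ^ 2))) ∧
    Tendsto (fun X : ℕ => (num X21 (fun _ _ _ => True) X : ℝ) / X) atTop
      (𝓝 (21 / (64 * Real.pi ^ 2))) := by
  classical
  refine ⟨?_, ?_, Pool.Agent.N916.GB.eta_bounds.1, Pool.Agent.N916.GB.eta_bounds.2, ?_, ?_⟩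
  · intro W K _ _ hK
    rcases hK.2.2 with ⟨h, -⟩ | ⟨h, -⟩
    · subst h
      exact dat15.field hK
    · subst h
      exact dat21.field hK
  · rintro W (rfl | rfl)
    · obtain ⟨h1, h2⟩ := dat15.laws (Mu := Pool.Agent.Run7.h289.XK.Mult)
        (fun a n ha hn => Pool.Agent.Run7.h289.XK.cl_tw ha hn) Pool.Agent.Run7.h289.XK.t_MANY
        (fun M a ha hM S => Pool.Agent.Run7.h289.XK.t_JDENS ha hM S)
      exact ⟨h1, fun M a ha hM S => h2 M a ha
        (fun i => ⟨(hM i).1, (hM i).2.1, (hM i).2.2.1 rfl⟩) S⟩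
    · obtain ⟨h1, h2⟩ := dat21.laws (Mu := Pool.Agent.Run7.h289.XL.Mult)
        (fun a n ha hn => Pool.Agent.Run7.h289.XL.cl_tw ha hn) Pool.Agent.Run7.h289.XL.t_MANY
        (fun M a ha hM S => Pool.Agent.Run7.h289.XL.t_JDENS ha hM S)
      exact ⟨h1, fun M a ha hM S => h2 M a ha
        (fun i => ⟨(hM i).1, (hM i).2.1, (hM i).2.2.2 rfl⟩) S⟩
  · have h := Run7.h238.G15.lim_Bb
    have e : (6 / Real.pi ^ 2 * (5 / 96) : ℝ) = 5 / (16 * Real.pi ^ 2) := by
      have : Real.pi ≠ 0 := Real.pi_ne_zero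
      field_simp
      norm_num
    rw [e] at h
    refine h.congr fun X => ?_
    rw [dat15.num_all X]
    congr 2
    symm
    refine Nat.subtype_card _ fun n => ?_
    rw [Finset.mem_filter, Finset.mem_Icc]
    constructor
    · rintro ⟨⟨-, h2⟩, h3⟩
      exact ⟨h2, h3⟩
    · rintro ⟨h2, h3⟩
      exact ⟨⟨Nat.one_le_iff_ne_zero.2 h3.1.ne_zero, h2⟩, h3⟩
  · refine Run7.h555.XL.lim_all.congr fun X => ?_
    rw [dat21.num_all X]
    congr 2
    symm
    refine Nat.subtype_card _ fun n => ?_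
    rw [Finset.mem_filter, Finset.mem_Icc]
    constructor
    · rintro ⟨⟨-, h2⟩, h3⟩
      exact ⟨h2, h3⟩
    · rintro ⟨h2, h3⟩
      exact ⟨⟨Nat.one_le_iff_ne_zero.2 h3.1.ne_zero, h2⟩, h3⟩

end Pool.Agent.Results.MP_e996df_nt.ImaginaryQuadraticX15X21
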