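import Pool.Agent.Run7.h16.OP.GloC
import Pool.Agent.Run7.h16.OP.Ana
import Pool.Agent.Run7.h16.OP.Desc
import Pool.Agent.Run7.h16.OP.RP2
import Pool.Agent.Y702.G.Main
import Pool.Agent.Y702.G.Sel
import Pool.Agent.Y702.F.Tam
import Pool.Agent.Y852.GS.Tams
import Pool.Agent.Y852.GS.Mins
import Pool.Agent.Y779.G.Tam
import Pool.Agent.Y238.G.Hasp
import Pool.Agent.Y563.G.Epq

/-!
# The `p`-part of the Birch and Swinnerton-Dyer conjecture for odd `p`: from `ℚ` to abelian
`p`-extensions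

`W` is the minimal equation of an elliptic curve `E` over `ℚ`, `p` is an odd prime (of good or bad
reduction) such that `E(ℚ)` is finite of order prime to `p`, `Ш(E/ℚ)` has no element of order `p`, the
Tamagawa product is prime to `p` and `L(E, 1) / Ω` is a `p`-adic unit (for example `E = X_0(11)` and
`p ≠ 2, 5`; this is for the reader, the example is not verified here).  `K ⊂ ℚ(ζ_m)` is an abelian
number field of degree `p^n` in which the primes that divide `6 p Δ` split completely, with `m`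
squarefree, prime to `6 p Δ`, and `l ≡ 1 (mod p)`, `p ∤ #E(𝔽_l)` for all primes `l` that divide `m`.
Then the `p`-part of the Birch and Swinnerton-Dyer conjecture holds for `E` over `K`, with all terms
prime to `p`: continuation and order of the `L`-function, rank, finiteness of `Ш[p^∞]`, and the formula
for `L(E/K, 1) √|Δ_K| / Ω` up to units at `p`.

The proof.  Algebraic side: the Galois cohomology group of `E[p]` over the `p`-extension `K`, `E` having
no points of order `p` over `K`; a nonzero `p`-Selmer group over `K` has a nonzero class fixed by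
`Gal(K/ℚ)`, and it extends to `Gal(ℚ̄/ℚ)`.  It is locally trivial over `ℚ_q`: for `q ∣ 6 p Δ` since `q`
splits; for `q ∤ 6 p Δ` the class is `h τ = τ P - P` for the `τ` that fix `K`; it vanishes on inertia
(if `q ∤ m` by the reduction of `P`; if `q ∣ m` since `K` is abelian and `E` has no points of order `p`
over `ℚ_q`), and `Frob - 1` is onto on the points of `p`-power order, so the class is a coboundary.  So
it gives a class in the `p`-Selmer group over `ℚ`, which is zero.  Analytic side: `L(E/K, s)` is the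
product of the twists `L(E, χ, s)` over the characters of `K`, which are entire and even, and
`τ(χ) L(E, χ⁻¹, 1)` is the real period times an algebraic number; modulo the primes above `p` these
numbers are congruent to the sum of modular symbols for `χ = 1`, which is `∏ (a_l - 2)` times
`L(E, 1)` up to a unit.  So they are units.
-/

set_option autoImplicit false

open NumberField NumberField.InfinitePlace IsDedekindDomain WeierstrassCurve MeasureTheory
open UpperHalfPlane MatrixGroups CongruenceSubgroup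

namespace Pool.Agent.Results.MP_e996df_nt.OddPartLifting

open scoped Classical

open Pool.Agent.TH841.NF.D (Sha)

/-- The curve given by the equation of `W` over the ring `R`. -/
abbrev base (W : WeierstrassCurve ℤ) (R : Type) [CommRing R] : WeierstrassCurve R :=
  W.map (Int.castRingHom R)

/-- The number of the affine points `(x, y)` over the ring `R`. -/
noncomputable def pts (W : WeierstrassCurve ℤ) (R : Type) [CommRing R] : ℕ :=
  Nat.card {P : R × R // (base W R).toAffine.Equation P.1 P.2}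

section

variable {K : Type} [Field K] [NumberField K]

/-- `a_v = N v + 1 - #W(k_v)`, the points over the residue field `k_v` counted with the point at
infinity. -/
noncomputable def a (W : WeierstrassCurve ℤ) (v : HeightOneSpectrum (𝓞 K)) : ℤ :=
  (Ideal.absNorm v.asIdeal : ℤ) - pts W (𝓞 K ⧸ v.asIdeal)

/-- The Euler factor of `L(W/K, s)` at `v` : `(1 - a_v N v^(-s) + N v^(1 - 2 s))⁻¹` if the
discriminant is a unit at `v`, and `(1 - a_v N v^(-s))⁻¹` otherwise. -/
noncomputable def factor (W : WeierstrassCurve ℤ) (s : ℂ) (v : HeightOneSpectrum (𝓞 K)) : ℂ :=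
  (1 - (a W v : ℂ) * (Ideal.absNorm v.asIdeal : ℂ) ^ (-s) +
    if ((W.Δ : ℤ) : 𝓞 K) ∈ v.asIdeal then 0 else (Ideal.absNorm v.asIdeal : ℂ) ^ (1 - 2 * s))⁻¹

/-- The equation is minimal at the finite place `v` of `K`: no change of variables over `K` that
keeps the coefficients integral at `v` decreases the valuation of the discriminant. -/
def MinimalAt (W : WeierstrassCurve ℤ) (v : HeightOneSpectrum (𝓞 K)) : Prop :=
  ∀ C : VariableChange K, v.valuation K (C • base W K).a₁ ≤ 1 →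
    v.valuation K (C • base W K).a₂ ≤ 1 → v.valuation K (C • base W K).a₃ ≤ 1 →
    v.valuation K (C • base W K).a₄ ≤ 1 → v.valuation K (C • base W K).a₆ ≤ 1 →
    v.valuation K (C • base W K).Δ ≤ v.valuation K (base W K).Δ

/-- `E⁰(K_v)`, the group of the points of `W` over the completion `K_v` with nonsingular reduction:
the points `(x, y)` where `x` is not integral, or one of the partial derivatives of
`y² + a₁ x y + a₃ y - x³ - a₂ x² - a₄ x - a₆` is a unit at `(x, y)`, and the point at infinity. -/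
noncomputable def nonsing (W : WeierstrassCurve ℤ) (v : HeightOneSpectrum (𝓞 K)) :
    AddSubgroup (base W (v.adicCompletion K)).toAffine.Point :=
  AddSubgroup.closure {P | ∀ x y h, P = Affine.Point.some x y h →
    1 < Valued.v x ∨ Valued.v (W.a₁ * y - (3 * x ^ 2 + 2 * W.a₂ * x + W.a₄)) = 1 ∨
      Valued.v (2 * y + W.a₁ * x + W.a₃) = 1}

/-- The Tamagawa number `c_v = [E(K_v) : E⁰(K_v)]` of a minimal equation. -/
noncomputable def c (W : WeierstrassCurve ℤ) (v : HeightOneSpectrum (𝓞 K)) : ℕ :=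
  (nonsing W v).index

end

section

variable (K : Type) [Field K] [NumberField K]

/-- The product of the Tamagawa numbers. -/
noncomputable def Tam (W : WeierstrassCurve ℤ) : ℕ := ∏ᶠ v : HeightOneSpectrum (𝓞 K), c W v

/-- The `p`-primary part of the Tate-Shafarevich group over `K`. -/
def ShaP (p : ℕ) (W : WeierstrassCurve ℤ) : Set (Sha (base W K)) := {x | ∃ n : ℕ, p ^ n • x = 0}

/-- The torsion subgroup of the group of the points over `K`. -/
def tors (W : WeierstrassCurve ℤ) : Set (base W K).toAffine.Point := {P | ∃ n : ℕ, 0 < n ∧ n • P = 0}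

/-- The rank of the group of the points over `K`. -/
noncomputable def rank (W : WeierstrassCurve ℤ) : ℕ := Module.finrank ℤ (base W K).toAffine.Point

end

/-- `4 x³ + b₂ x² + 2 b₄ x + b₆ = (2 y + a₁ x + a₃)²`, where `b₂ = a₁² + 4 a₂`,
`b₄ = 2 a₄ + a₁ a₃`, `b₆ = a₃² + 4 a₆`. -/
def cubic (W : WeierstrassCurve ℤ) {R : Type} [CommRing R] (x : R) : R :=
  4 * x ^ 3 + W.b₂ * x ^ 2 + 2 * W.b₄ * x + W.b₆

/-- `∫_{W(ℝ)} |ω|` with `ω = dx / (2 y + a₁ x + a₃)`, as an integral over `x`: two real points lie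
over each `x` with `cubic x > 0`. -/
noncomputable def realPeriod (W : WeierstrassCurve ℤ) : ℝ :=
  2 * ∫ x in {x : ℝ | 0 < cubic W x}, 1 / √(cubic W x)

/-- `2 ∫_{W(ℂ)} |ω ∧ ω̄|`, where `|ω ∧ ω̄| = du dv` in a local parameter `z = u + i v` with
`dz = ω`, as an integral over `x`: two points lie over a general `x`, and `|ω ∧ ω̄|` is the area
element of the plane of `x` divided by `|cubic x|`. -/
noncomputable def complexPeriod (W : WeierstrassCurve ℤ) : ℝ := 2 * (2 * ∫ x : ℂ, 1 / ‖cubic W x‖)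

/-- The global period of an equation that is minimal at all finite places. -/
noncomputable def Omega (K : Type) [Field K] [NumberField K] (W : WeierstrassCurve ℤ) : ℝ :=
  realPeriod W ^ nrRealPlaces K * complexPeriod W ^ nrComplexPlaces K

/-- **The `p`-part of the Birch and Swinnerton-Dyer conjecture** for `W` over `K`, the equation being
minimal and the rank being zero: almost all Tamagawa numbers are one; the `L`-function is entire; its
order at `s = 1` is the rank; the `p`-primary part of the Tate-Shafarevich group is finite; and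
`L(1) √|Δ_K| / Ω` is a rational number with the same `p`-adic valuation as
`#Ш[p^∞] Tam / #tors²`. -/
structure BSDp (p : ℕ) (K : Type) [Field K] [NumberField K] (W : WeierstrassCurve ℤ) : Prop where
  minimal : ∀ v : HeightOneSpectrum (𝓞 K), MinimalAt W v
  tam : {v : HeightOneSpectrum (𝓞 K) | c W v ≠ 1}.Finite
  rank : rank K W = 0
  points : Finite (base W K).toAffine.Point
  sha : (ShaP K p W).Finite
  formula : ∃ L : ℂ → ℂ, Differentiable ℂ L ∧
    (∀ s : ℂ, 3 / 2 < s.re → HasProd (factor (K := K) W s) (L s)) ∧ analyticOrderAt L 1 = 0 ∧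
    ∃ r : ℚ, L 1 * √|(discr K : ℝ)| = r * Omega K W ∧ r ≠ 0 ∧
      padicValRat p r = padicValRat p
        ((Nat.card (ShaP K p W) * Tam K W : ℚ) / (Nat.card (tors K W) : ℚ) ^ 2)

/-- The algebraic terms of the formula are prime to `p`. -/
structure AllPrime (p : ℕ) (K : Type) [Field K] [NumberField K] (W : WeierstrassCurve ℤ) : Prop where
  sha : ShaP K p W = {0}
  tam : ¬ p ∣ Tam K W
  tors : ¬ p ∣ Nat.card (tors K W)

/-- The conditions on `W` over `ℚ`: the equation is minimal, the group of the points is finite of order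
prime to `p`, the Tate-Shafarevich group has no element of order `p`, the product of the Tamagawa
numbers is prime to `p`, the `L`-function is entire and `L(1) / Ω` is a `p`-adic unit. -/
structure UnitAt (p : ℕ) (W : WeierstrassCurve ℤ) : Prop where
  minimal : ∀ v : HeightOneSpectrum (𝓞 ℚ), MinimalAt W v
  points : Finite (base W ℚ).toAffine.Point
  card : ¬ p ∣ Nat.card (base W ℚ).toAffine.Point
  sha : ∀ s : Sha (base W ℚ), p • s = 0 → s = 0
  fin : {v : HeightOneSpectrum (𝓞 ℚ) | c W v ≠ 1}.Finite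
  tam : ¬ p ∣ Tam ℚ W
  value : ∃ L : ℂ → ℂ, Differentiable ℂ L ∧
    (∀ s : ℂ, 3 / 2 < s.re → HasProd (factor (K := ℚ) W s) (L s)) ∧
    ∃ r : ℚ, L 1 = r * Omega ℚ W ∧ r ≠ 0 ∧ padicValRat p r = 0

section modular

variable {N : ℕ}

/-- The `n`-th coefficient of the cusp form `f = ∑ a_n q^n`. -/
noncomputable def co (f : CuspForm (Gamma0 N : Subgroup (GL (Fin 2) ℝ)) 2) (n : ℕ) : ℂ :=
  (qExpansion 1 f).coeff n

/-- `2 π i ∫_(i∞)^z f(w) dw = ∑ a_n / n e^(2 π i n z)`. -/
noncomputable def prim (f : CuspForm (Gamma0 N : Subgroup (GL (Fin 2) ℝ)) 2) (z : ℂ) : ℂ :=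
  ∑' n : ℕ, co f n / n * Complex.exp (2 * Real.pi * Complex.I * n * z)

/-- The cusp form `f` of weight two for `Γ₀(N)` is the newform of `W`: it is a normalised eigenform
of the Hecke operators and of the Fricke involution, with real coefficients that satisfy the bounds
of Hasse, `N` has the same prime divisors as the discriminant, and `a_p = p + 1 - #W(𝔽_p)`. -/
structure IsNewform (W : WeierstrassCurve ℤ) (N : ℕ)
    (f : CuspForm (Gamma0 N : Subgroup (GL (Fin 2) ℝ)) 2) : Prop where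
  one : co f 1 = 1
  real : ∀ n, (co f n).im = 0
  mul : ∀ m n : ℕ, Nat.Coprime m n → co f (m * n) = co f m * co f n
  pow : ∀ p j : ℕ, p.Prime → co f (p ^ (j + 2)) = co f p * co f (p ^ (j + 1)) -
      (if p ∣ N then 0 else (p : ℂ) * co f (p ^ j))
  good : ∀ p : ℕ, p.Prime → ¬ p ∣ N → ‖co f p‖ ≤ 2 * Real.sqrt p
  bad : ∀ p : ℕ, p.Prime → p ∣ N → ‖co f p‖ ≤ 1
  fricke : ∃ w : ℝ, (w = 1 ∨ w = -1) ∧ ∀ τ τ' : ℍ, (τ' : ℂ) * ((N : ℂ) * (τ : ℂ)) = -1 →
    f τ' = -(w : ℂ) * (N : ℂ) * (τ : ℂ) ^ 2 * f τ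
  level : ∀ p : ℕ, p.Prime → (p ∣ N ↔ (p : ℤ) ∣ W.Δ)
  coef : ∀ p : ℕ, p.Prime → co f p = (p : ℂ) - (pts W (ZMod p) : ℂ)

end modular

section proof

open Pool.Agent.Y702

variable {N : ℕ} [NeZero N]

lemma isForm {W : WeierstrassCurve ℤ} {f : CuspForm (Gamma0 N : Subgroup (GL (Fin 2) ℝ)) 2}
    (h : IsNewform W N f) : G.IsForm W N f :=
  ⟨h.one, h.real, h.mul, h.pow, h.good, h.bad, h.fricke, h.level, h.coef⟩

lemma factor_eq {K : Type} [Field K] [NumberField K] (W : WeierstrassCurve ℤ) (s : ℂ) :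
    factor (K := K) W s = G.factor (K := K) W s := rfl

lemma min_eq {K : Type} [Field K] [NumberField K] (W : WeierstrassCurve ℤ)
    (v : HeightOneSpectrum (𝓞 K)) : MinimalAt W v ↔ G.MinimalAt W v := Iff.rfl

lemma c_eq {K : Type} [Field K] [NumberField K] (W : WeierstrassCurve ℤ)
    (v : HeightOneSpectrum (𝓞 K)) : c W v = (G.E0 W (v.adicCompletion K) Valued.v).index := rfl

lemma cubic_eq (W : WeierstrassCurve ℤ) {R : Type} [CommRing R] (x : R) :
    cubic W x = G.cubic W x := rfl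

/-- the value of the `L`-function over `ℚ` is the value of the integral of `f` -/
theorem bv_zero (hE : G.S_EPQ) {W : WeierstrassCurve ℤ}
    {f : CuspForm (Gamma0 N : Subgroup (GL (Fin 2) ℝ)) 2} (hf : G.IsForm W N f) (L : ℂ → ℂ)
    (hL : Differentiable ℂ L)
    (hp : ∀ s : ℂ, 3 / 2 < s.re → HasProd (factor (K := ℚ) W s) (L s)) :
    Pool.Agent.Y18.BSD.bv f 0 = L 1 := by
  obtain ⟨H, h1, h2, h3⟩ := G.twist hf 1 (Nat.coprime_one_left N) (1 : DirichletCharacter ℂ 1)
    (DirichletCharacter.isPrimitive_one_level_one)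
  have e : L = H := by
    have hLa : AnalyticOnNhd ℂ L Set.univ := fun z _ => hL.analyticAt z
    have hHa : AnalyticOnNhd ℂ H Set.univ := fun z _ => h1.analyticAt z
    refine hLa.eq_of_eventuallyEq hHa (z₀ := 2) ?_
    have hopen : IsOpen {s : ℂ | 3 / 2 < s.re} := isOpen_lt continuous_const Complex.continuous_re
    filter_upwards [hopen.mem_nhds (show (2 : ℂ) ∈ {s : ℂ | 3 / 2 < s.re} by
      simp only [Set.mem_ofPred_eq]; norm_num)] with s hs
    have h4 := hE W N f hf s (L s) (hp s hs)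
    have h5 := h2 s hs
    refine h4.unique (h5.congr_fun fun p => ?_)
    have hz : ((p : ℕ) : ZMod 1) = 1 := Subsingleton.elim _ _
    rw [hz, map_one, mul_one, one_pow, mul_one]
  rw [e]
  have hd : ((default : (ZMod 1)ˣ)) = 1 := Subsingleton.elim _ _
  have hv : (((1 : (ZMod 1)ˣ) : ZMod 1).val : ℚ) / ((1 : ℕ) : ℚ) = 0 := by
    have : (((1 : (ZMod 1)ˣ) : ZMod 1)).val = 0 := by
      have := ZMod.val_lt ((1 : (ZMod 1)ˣ) : ZMod 1)
      omega
    rw [this]; simp
  rw [Fintype.sum_unique, hd, hv, Units.val_one, map_one, one_mul] at h3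
  have hg : gaussSum (1 : DirichletCharacter ℂ 1)⁻¹ (ZMod.stdAddChar (N := 1)) = 1 := by
    unfold gaussSum
    have h6 : ∀ x : ZMod 1, (1 : DirichletCharacter ℂ 1)⁻¹ x * ZMod.stdAddChar (N := 1) x = 1 := by
      intro x
      have e1 : (1 : DirichletCharacter ℂ 1)⁻¹ x = 1 := by
        rw [Subsingleton.elim x 1, map_one]
      have e2 : ZMod.stdAddChar (N := 1) x = 1 := by
        rw [Subsingleton.elim x 0, AddChar.map_zero_eq_one]
      rw [e1, e2, one_mul]
    rw [Finset.sum_congr rfl fun x _ => h6 x]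
    simp
  rw [hg, one_mul] at h3
  exact h3.symm

lemma nd_of_val {p : ℕ} [hp : Fact p.Prime] (r : ℚ) (h0 : r ≠ 0) (h : padicValRat p r = 0) :
    ¬ (p : ℤ) ∣ r.num ∧ ¬ (p : ℤ) ∣ (r.den : ℤ) := by
  have h1 : padicValRat p r = padicValInt p r.num - padicValNat p r.den := rfl
  rw [h1] at h
  have hnum : r.num ≠ 0 := Rat.num_ne_zero.2 h0
  have hcop : Nat.Coprime r.num.natAbs r.den := r.reduced
  by_cases h2 : p ∣ r.den
  · exfalso
    have h3 : ¬ p ∣ r.num.natAbs := by
      intro h4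
      have := Nat.dvd_gcd h4 h2
      rw [hcop] at this
      exact hp.out.one_lt.ne' (Nat.dvd_one.1 this)
    have h4 : padicValInt p r.num = 0 := by
      unfold padicValInt
      exact padicValNat.eq_zero_of_not_dvd h3
    have h5 : 0 < padicValNat p r.den := by
      have := one_le_padicValNat_of_dvd r.den_nz h2
      omega
    rw [h4] at h
    omega
  · have h4 : padicValNat p r.den = 0 := padicValNat.eq_zero_of_not_dvd h2
    rw [h4] at h
    have h5 : ¬ p ∣ r.num.natAbs := by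
      intro h6
      have h7 : 0 < padicValNat p r.num.natAbs := by
        have := one_le_padicValNat_of_dvd (Int.natAbs_ne_zero.2 hnum) h6
        omega
      unfold padicValInt at h
      omega
    exact ⟨fun h6 => h5 (Int.natCast_dvd.1 h6), fun h6 => h2 (by exact_mod_cast h6)⟩

lemma val_zero {p : ℕ} [hp : Fact p.Prime] (D M : ℤ) (hD : ¬ (p : ℤ) ∣ D) (hM : ¬ (p : ℤ) ∣ M)
    (ε : ℚ) (hε : ε = 1 ∨ ε = -1) : padicValRat p (ε * (|(M : ℚ)| / |(D : ℚ)|)) = 0 := by
  have ne : ∀ N : ℤ, ¬ (p : ℤ) ∣ N → (N : ℚ) ≠ 0 := by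
    intro N hN h
    have : N = 0 := by exact_mod_cast h
    rw [this] at hN
    exact hN (dvd_zero _)
  have h1 : ∀ N : ℤ, ¬ (p : ℤ) ∣ N → padicValRat p |(N : ℚ)| = 0 := by
    intro N hN
    have e : |(N : ℚ)| = ((N.natAbs : ℕ) : ℚ) := by
      rw [Nat.cast_natAbs, Int.cast_abs]
    rw [e, padicValRat.of_nat]
    have : ¬ p ∣ N.natAbs := fun h => hN (Int.natCast_dvd.2 h)
    rw [padicValNat.eq_zero_of_not_dvd this]
    rfl
  have h2 : padicValRat p (|(M : ℚ)| / |(D : ℚ)|) = 0 := by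
    rw [padicValRat.div (abs_ne_zero.2 (ne M hM)) (abs_ne_zero.2 (ne D hD)), h1 M hM, h1 D hD,
      sub_zero]
  rcases hε with rfl | rfl
  · rw [one_mul]; exact h2
  · rw [neg_one_mul, padicValRat.neg]; exact h2

section alg

variable {K : Type} [Field K] [NumberField K] {W : WeierstrassCurve ℤ} {p : ℕ} [hp : Fact p.Prime]

omit hp in
lemma tors_eq (h : Finite (base W K).toAffine.Point) : tors K W = Set.univ := by
  ext P
  simp only [Set.mem_univ, iff_true]
  exact ⟨Nat.card (base W K).toAffine.Point, Nat.card_pos,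
    card_nsmul_eq_zero' (G := (base W K).toAffine.Point) (x := P)⟩

omit hp in
lemma rank_eq (h : Finite (base W K).toAffine.Point) : rank K W = 0 := by
  unfold rank
  apply Module.IsTorsion.finrank_eq_zero
  intro P
  refine ⟨⟨(Nat.card (base W K).toAffine.Point : ℤ), ?_⟩, ?_⟩
  · rw [mem_nonZeroDivisors_iff_ne_zero]
    exact_mod_cast Nat.card_pos.ne'
  · show (Nat.card (base W K).toAffine.Point : ℤ) • P = 0
    rw [natCast_zsmul]
    exact card_nsmul_eq_zero'

omit hp in
lemma sha_eq (h : ∀ s : Sha (base W K), p • s = 0 → s = 0) : ShaP K p W = {0} := by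
  have key : ∀ (j : ℕ) (x : Sha (base W K)), p ^ j • x = 0 → x = 0 := by
    intro j
    induction j with
    | zero => intro x hx; rw [pow_zero, one_nsmul] at hx; exact hx
    | succ j ih =>
      intro x hx
      rw [pow_succ, mul_nsmul] at hx
      exact ih x (h _ hx)
  ext x
  constructor
  · rintro ⟨k, hk⟩
    exact key k x hk
  · rintro rfl
    exact ⟨0, nsmul_zero _⟩

lemma all_val (h : AllPrime p K W) : padicValRat p
    ((Nat.card (ShaP K p W) * Tam K W : ℚ) / (Nat.card (tors K W) : ℚ) ^ 2) = 0 := by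
  have h1 : Tam K W ≠ 0 := fun h0 => h.tam (by rw [h0]; exact dvd_zero _)
  have h2 : Nat.card (tors K W) ≠ 0 := fun h0 => h.tors (by rw [h0]; exact dvd_zero _)
  rw [h.sha, Nat.card_unique, Nat.cast_one, one_mul]
  rw [padicValRat.div (Nat.cast_ne_zero.2 h1)
    (pow_ne_zero _ (Nat.cast_ne_zero.2 h2)), padicValRat.pow, padicValRat.of_nat,
    padicValRat.of_nat, padicValNat.eq_zero_of_not_dvd h.tam,
    padicValNat.eq_zero_of_not_dvd h.tors]
  simp

omit hp in
lemma c_nd (hfin : {v : HeightOneSpectrum (𝓞 K) | c W v ≠ 1}.Finite) (h : ¬ p ∣ Tam K W)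
    (hp1 : p ≠ 1) (v : HeightOneSpectrum (𝓞 K)) : ¬ p ∣ c W v := by
  by_cases hv : c W v = 1
  · rw [hv]
    exact fun h => hp1 (Nat.dvd_one.1 h)
  · refine fun h1 => h (h1.trans ?_)
    unfold Tam
    rw [finprod_eq_prod_of_mulSupport_subset (s := hfin.toFinset) (fun v => c W v) (by
      intro w hw
      simpa using hw)]
    exact Finset.dvd_prod_of_mem _ (by simpa using hv)

end alg

section core

variable {N : ℕ} [NeZero N]

lemma total_real (K : Type) [Field K] [NumberField K] [IsGalois ℚ K]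
    (h : Odd (Module.finrank ℚ K)) : nrComplexPlaces K = 0 := by
  rw [nrComplexPlaces_eq_zero_iff]
  have h1 : IsUnramifiedAtInfinitePlaces ℚ K := IsUnramifiedAtInfinitePlaces_of_odd_finrank h
  refine ⟨fun w => ?_⟩
  rcases (InfinitePlace.isUnramified_iff (k := ℚ)).1 (h1.isUnramified w) with h2 | h2
  · exact h2
  · exfalso
    have h3 : nrComplexPlaces ℚ = 0 :=
      nrComplexPlaces_eq_zero_of_finrank_eq_one (Module.finrank_self ℚ)
    rw [nrComplexPlaces_eq_zero_iff] at h3
    exact (InfinitePlace.not_isReal_iff_isComplex.2 h2) (h3.isReal _)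

theorem core {p : ℕ} [hp : Fact p.Prime] (hp2 : p ≠ 2) (W : WeierstrassCurve ℤ) (hΔ : W.Δ ≠ 0)
    (f : CuspForm (Gamma0 N : Subgroup (GL (Fin 2) ℝ)) 2) (hf : IsNewform W N f)
    (Λ : PeriodPair) (hg₂ : Λ.g₂ = (W.c₄ : ℂ) / 12) (hg₃ : Λ.g₃ = (W.c₆ : ℂ) / 216)
    (hman : ∃ c : ℤ, ¬ (p : ℤ) ∣ c ∧ ∀ γ ∈ Gamma0 N, ∀ z : ℍ,
      (c : ℂ) * (prim f ((γ • z : ℍ) : ℂ) - prim f (z : ℂ)) ∈ Λ.lattice)
    (hQ : UnitAt p W)
    (m : ℕ) [NeZero m] (hsq : Squarefree m)
    (hm : ∀ l : ℕ, l.Prime → l ∣ m →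
      ¬ (l : ℤ) ∣ W.Δ ∧ p ∣ l - 1 ∧ ¬ p ∣ pts W (ZMod l) + 1)
    (M : Type) [Field M] [NumberField M] [IsCyclotomicExtension {m} ℚ M]
    (K : IntermediateField ℚ M) (n : ℕ) (hn : Module.finrank ℚ K = p ^ n)
    (hsplit : ∀ v : HeightOneSpectrum (𝓞 K), ((6 * p * W.Δ : ℤ) : 𝓞 K) ∈ v.asIdeal →
      (Ideal.absNorm v.asIdeal).Prime) :
    BSDp p K W ∧ AllPrime p K W := by
  have hgal : IsGalois ℚ K := Pool.Agent.Y702.L.gal_F m M K
  have hfI := isForm hf
  have hunr : ∀ (p : ℕ), p.Prime → ¬ p ∣ m → ∀ v : HeightOneSpectrum (𝓞 K), (p : 𝓞 K) ∈ v.asIdeal →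
      v.valuation K (p : K) = WithZero.exp (-1 : ℤ) :=
    fun p hp hpm v hv => Pool.Agent.Y702.Fn.unr m M K hp hpm v hv
  have hp3 : 3 ≤ p := by
    have := hp.out.two_le
    omega
  have hpI : Prime (p : ℤ) := Nat.prime_iff_prime_int.1 hp.out
  -- the primes that divide `m`
  have hm6 : ∀ l : ℕ, l.Prime → l ∣ m → ¬ (l : ℤ) ∣ 6 * p * W.Δ := by
    intro l hl hlm h
    obtain ⟨h1, h2, -⟩ := hm l hl hlm
    have hlI : Prime (l : ℤ) := Nat.prime_iff_prime_int.1 hl
    have hl1 : 0 < l - 1 := by have := hl.two_le; omega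
    have hle := Nat.le_of_dvd hl1 h2
    rcases hlI.dvd_or_dvd h with h3 | h3
    · rcases hlI.dvd_or_dvd h3 with h4 | h4
      · have h5 : l ∣ 6 := by exact_mod_cast h4
        have h6 : l ∣ 2 * 3 := h5
        rcases (Nat.Prime.dvd_mul hl).1 h6 with h7 | h7
        · have := Nat.le_of_dvd (by norm_num) h7
          omega
        · have := Nat.le_of_dvd (by norm_num) h7
          omega
      · have h5 : l ∣ p := by exact_mod_cast h4
        have := Nat.le_of_dvd hp.out.pos h5
        omega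
    · exact h1 h3
  have hsplit2 : ∀ v : HeightOneSpectrum (𝓞 K), ((2 * W.Δ : ℤ) : 𝓞 K) ∈ v.asIdeal →
      (Ideal.absNorm v.asIdeal).Prime := by
    intro v hv
    apply hsplit
    have e : ((6 * p * W.Δ : ℤ) : 𝓞 K) = ((3 * p : ℤ) : 𝓞 K) * ((2 * W.Δ : ℤ) : 𝓞 K) := by
      push_cast; ring
    rw [e]
    exact Ideal.mul_mem_left _ _ hv
  -- the algebraic side over `ℚ`
  have hfinQ : Finite (base W ℚ).toAffine.Point := hQ.points
  have hcardQ : ¬ p ∣ Nat.card (base W ℚ).toAffine.Point := hQ.card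
  have hshaQ : ∀ s : Sha (base W ℚ), p • s = 0 → s = 0 := hQ.sha
  have hsel := Run7.h16.OP.sel_p hp2 W hΔ hshaQ hfinQ hcardQ m M K n hn
    (fun l hl hlm => ⟨hm6 l hl hlm, (hm l hl hlm).2.2⟩) hunr hsplit
  obtain ⟨hsha, hfin, hcard⟩ := Run7.h16.OP.s_desc W hΔ hsel
  have hfin' : Finite (base W K).toAffine.Point := hfin
  have hcard' : ¬ p ∣ Nat.card (base W K).toAffine.Point := hcard
  have htors : tors K W = Set.univ := tors_eq hfin'
  have hSha : ShaP K p W = {0} := sha_eq hsha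
  -- the places
  have hbelow : ∀ v : HeightOneSpectrum (𝓞 K), ((W.Δ : ℤ) : 𝓞 K) ∈ v.asIdeal →
      (∀ x : ℚ, v.valuation K (algebraMap ℚ K x) = (v.under (𝓞 ℚ)).valuation ℚ x) ∧
      (Ideal.absNorm v.asIdeal).Prime := by
    intro v hv
    have h2 : ((2 * W.Δ : ℤ) : 𝓞 K) ∈ v.asIdeal := by
      push_cast
      exact Ideal.mul_mem_left _ _ hv
    refine ⟨?_, hsplit2 v h2⟩
    set q := Pool.Agent.H921R2.TatePole.below v with hq
    have h5 : ((q : ℕ) : ℤ) ∣ W.Δ := by
      have h6 : ((W.Δ.natAbs : ℕ) : 𝓞 K) ∈ v.asIdeal := by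
        rcases Int.natAbs_eq W.Δ with h8 | h8
        · rw [h8] at hv
          rw [Int.cast_natCast] at hv
          exact hv
        · rw [h8, Int.cast_neg, neg_mem_iff, Int.cast_natCast] at hv
          exact hv
      rw [Pool.Agent.H82R3.EK.natCast_mem_iff] at h6
      exact Int.natCast_dvd.2 h6
    have hqm : ¬ (q : ℕ) ∣ m := fun h => (hm _ q.2 h).1 h5
    exact G.val_eq v _ rfl q (hunr _ q.2 hqm v ((Pool.Agent.H82R3.EK.natCast_mem_iff v _).2 dvd_rfl))
  have hunit : ∀ v : HeightOneSpectrum (𝓞 K), ((W.Δ : ℤ) : 𝓞 K) ∉ v.asIdeal →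
      v.valuation K (W.Δ : K) = 1 := by
    intro v hv
    have e : algebraMap (𝓞 K) K ((W.Δ : ℤ) : 𝓞 K) = (W.Δ : K) := map_intCast _ _
    have h1 : v.valuation K (W.Δ : K) ≤ 1 := Fn.int_le_one v _
    rcases h1.lt_or_eq with h2 | h2
    · exfalso
      apply hv
      have h3 := v.valuation_lt_one_iff_mem (K := K) ((W.Δ : ℤ) : 𝓞 K)
      have h4 : v.valuation K (algebraMap (𝓞 K) K ((W.Δ : ℤ) : 𝓞 K)) < 1 := by
        rw [e]; exact h2
      exact h3.1 h4
    · exact h2
  have hc1 : ∀ v : HeightOneSpectrum (𝓞 K), ((W.Δ : ℤ) : 𝓞 K) ∉ v.asIdeal → c W v = 1 := by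
    intro v hv
    have hint : ∀ n : ℤ, Valued.v ((n : ℤ) : v.adicCompletion K) ≤ 1 := fun n => by
      rw [Fn.valued_int]
      exact Fn.int_le_one v n
    rw [c_eq, Pool.Agent.Y779.G.s_tamg W (v.adicCompletion K) Valued.v hint (by
      rw [Fn.valued_int]
      exact hunit v hv), AddSubgroup.index_top]
  have hcnd : ∀ v : HeightOneSpectrum (𝓞 K), ¬ p ∣ c W v := by
    intro v
    by_cases hv : ((W.Δ : ℤ) : 𝓞 K) ∈ v.asIdeal
    · obtain ⟨h1, h2⟩ := hbelow v hv
      rw [c_eq, Pool.Agent.Y852.GS.s_tams W K v _ h1 h2, ← c_eq]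
      exact c_nd hQ.fin hQ.tam hp.out.one_lt.ne' _
    · rw [hc1 v hv]
      exact fun h => hp.out.one_lt.ne' (Nat.dvd_one.1 h)
  have hTam : ¬ p ∣ Tam K W :=
    finprod_induction (fun x => ¬ p ∣ x) (fun h => hp.out.one_lt.ne' (Nat.dvd_one.1 h))
      (fun a b ha hb hab => (hp.out.dvd_mul.1 hab).elim ha hb) hcnd
  have hAO : AllPrime p K W := ⟨hSha, hTam, by rw [htors, Nat.card_univ]; exact hcard'⟩
  refine ⟨?_, hAO⟩
  -- the period
  obtain ⟨A, hA, hre, k, hk, hkA⟩ := Run7.h16.OP.RP.real_period W hΔ Λ hg₂ hg₃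
  have hreal : realPeriod W = k * A := hkA
  have hk0 : 0 < k := by rcases hk with rfl | rfl <;> norm_num
  have hkp : ¬ (p : ℤ) ∣ (k : ℤ) := by
    intro h
    have h1 : p ∣ k := by exact_mod_cast h
    have h2 := Nat.le_of_dvd hk0 h1
    rcases hk with rfl | rfl <;> omega
  -- the value over `ℚ`
  obtain ⟨L₀, hL1, hL2, r₀, hr1, hr2, hr3⟩ := hQ.value
  obtain ⟨hnum, hden⟩ := nd_of_val r₀ hr2 hr3
  have hbv := bv_zero Pool.Agent.Y563.G.s_epq hfI L₀ hL1 hL2
  have hOQ : Omega ℚ W = k * A := by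
    unfold Omega
    rw [hreal, nrRealPlaces_eq_one_of_finrank_eq_one (Module.finrank_self ℚ),
      nrComplexPlaces_eq_zero_of_finrank_eq_one (Module.finrank_self ℚ), pow_one, pow_zero, mul_one]
  have hval0 : ((r₀.den : ℤ) : ℂ) * Pool.Agent.Y18.BSD.bv f 0 =
      ((r₀.num * (k : ℤ) : ℤ) : ℂ) * (A : ℂ) := by
    rw [hOQ] at hr1
    have h1 : L₀ 1 = r₀ * (k * A) := by
      rw [hr1]
      push_cast
      ring
    rw [hbv, h1]
    have h2 : ((r₀.den : ℤ) : ℂ) * (r₀ : ℂ) = (r₀.num : ℂ) := by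
      have h3 : ((r₀.den : ℤ) : ℚ) * r₀ = (r₀.num : ℚ) := by
        rw [Int.cast_natCast]
        exact Rat.den_mul_eq_num r₀
      exact_mod_cast congrArg (fun x : ℚ => (x : ℂ)) h3
    push_cast at h2 ⊢
    linear_combination (k * A : ℂ) * h2
  obtain ⟨cc, hcc, hman'⟩ := hman
  have hPer : Run7.h16.OP.PerP p f A (Λ.lattice : Set ℂ) cc (r₀.num * (k : ℤ)) (r₀.den : ℤ) := by
    refine ⟨hA, hre, hcc, ?_, ?_, hden, hval0⟩
    · rintro x ⟨γ, rfl⟩
      have h1 := Pool.Agent.Y18.BSD.per_spec f (Additive.toMul γ) UpperHalfPlane.I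
      have h2 := hman' _ (Additive.toMul γ).2 UpperHalfPlane.I
      have h3 : prim f ((((Additive.toMul γ : Gamma0 N) : SL(2, ℤ)) • UpperHalfPlane.I : ℍ) : ℂ) -
          prim f (UpperHalfPlane.I : ℂ) = Pool.Agent.Y18.BSD.per f (Additive.toMul γ) := by
        have h4 : prim f ((((Additive.toMul γ : Gamma0 N) : SL(2, ℤ)) • UpperHalfPlane.I : ℍ) : ℂ) =
            prim f (UpperHalfPlane.I : ℂ) + Pool.Agent.Y18.BSD.per f (Additive.toMul γ) := h1
        rw [h4]
        ring
      rw [h3] at h2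
      exact h2
    · intro h
      rcases hpI.dvd_or_dvd h with h | h
      · exact hnum h
      · exact hkp h
  have hcoN : Nat.Coprime m N := by
    rw [Nat.coprime_iff_gcd_eq_one]
    by_contra h
    obtain ⟨l, hl, hl2⟩ := Nat.exists_prime_and_dvd h
    have h3 := (hfI.level l hl).1 (hl2.trans (Nat.gcd_dvd_right _ _))
    exact (hm l hl (hl2.trans (Nat.gcd_dvd_left _ _))).1 h3
  obtain ⟨H, hHd, hHp, him, D, M', hDo, hMo, hval⟩ := Run7.h16.OP.l_main hp2
    Pool.Agent.Y238.G.s_hasp hΔ hfI hPer m hsq hcoN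
    (fun l hl hlm => by
      obtain ⟨-, h2, h3⟩ := hm l hl hlm
      have h4 : (p : ℤ) ∣ (l : ℤ) - 1 := by
        have h5 : ((l - 1 : ℕ) : ℤ) = (l : ℤ) - 1 := by
          rw [Nat.cast_sub hl.one_le]; rfl
        rw [← h5]
        exact_mod_cast h2
      refine ⟨h4, fun h5 => h3 ?_⟩
      have h6 : (p : ℤ) ∣ ((l : ℤ) - 1) - (((l : ℤ) - pts W (ZMod l)) - 2) := dvd_sub h4 h5
      have h7 : ((l : ℤ) - 1) - (((l : ℤ) - pts W (ZMod l)) - 2) =
          ((pts W (ZMod l) + 1 : ℕ) : ℤ) := by push_cast; ring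
      rw [h7] at h6
      exact_mod_cast h6) M K n hn hsplit2
  have hodd : Odd (Module.finrank ℚ K) := by
    rw [hn]
    exact (hp.out.odd_of_ne_two hp2).pow
  have hc0 := total_real K hodd
  have hr0 : nrRealPlaces K = p ^ n := by
    have h := card_add_two_mul_card_eq_rank K
    rw [hc0, mul_zero, add_zero] at h
    rw [h, hn]
  have hOmega : Omega K W = (k * A) ^ (p ^ n) := by
    unfold Omega
    rw [hreal, hc0, hr0, pow_zero, mul_one]
  have hkR : (0 : ℝ) < k := by exact_mod_cast hk0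
  have hOmega0 : 0 < Omega K W := by
    rw [hOmega]; positivity
  have ne : ∀ N : ℤ, ¬ (p : ℤ) ∣ N → (N : ℝ) ≠ 0 := by
    intro N hN h
    have : N = 0 := by exact_mod_cast h
    rw [this] at hN
    exact hN (dvd_zero _)
  set D' : ℤ := D * (k : ℤ) ^ (p ^ n) with hD'
  have hDo' : ¬ (p : ℤ) ∣ D' := by
    intro h
    rcases hpI.dvd_or_dvd h with h | h
    · exact hDo h
    · exact hkp (hpI.dvd_of_dvd_pow h)
  have hD0 : 0 < |(D' : ℝ)| := abs_pos.2 (ne D' hDo')
  have hM0 : 0 < |(M' : ℝ)| := abs_pos.2 (ne M' hMo)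
  have hval' : ‖H 1‖ * √|(discr K : ℝ)| = |(M' : ℝ)| / |(D' : ℝ)| * Omega K W := by
    have e1 : |(D' : ℝ)| = |(D : ℝ)| * (k : ℝ) ^ (p ^ n) := by
      rw [hD']
      push_cast
      rw [abs_mul, abs_of_pos (pow_pos hkR (p ^ n))]
    rw [div_mul_eq_mul_div, eq_div_iff hD0.ne', hOmega, mul_pow, e1]
    calc ‖H 1‖ * √|(discr K : ℝ)| * (|(D : ℝ)| * (k : ℝ) ^ (p ^ n))
        = (|(D : ℝ)| * (‖H 1‖ * √|(discr K : ℝ)|)) * (k : ℝ) ^ (p ^ n) := by ring
      _ = |(M' : ℝ)| * ((k : ℝ) ^ (p ^ n) * A ^ (p ^ n)) := by rw [hval]; ring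
  have hH1 : H 1 ≠ 0 := by
    intro h
    rw [h, norm_zero, zero_mul] at hval'
    have : 0 < |(M' : ℝ)| / |(D' : ℝ)| * Omega K W := mul_pos (div_pos hM0 hD0) hOmega0
    exact this.ne hval'
  have hre : H 1 = ((H 1).re : ℂ) := Complex.ext rfl (by rw [him]; rfl)
  have hnorm : ‖H 1‖ = |(H 1).re| := by
    rw [hre, Complex.norm_real, Real.norm_eq_abs, Complex.ofReal_re]
  refine ⟨fun v => ?_, ?_, rank_eq hfin', hfin', by rw [hSha]; exact Set.finite_singleton 0,
    H, hHd, hHp, analyticOrderAt_eq_zero.2 (Or.inr hH1), ?_⟩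
  · by_cases hv : ((W.Δ : ℤ) : 𝓞 K) ∈ v.asIdeal
    · obtain ⟨h1, h2⟩ := hbelow v hv
      exact Pool.Agent.Y852.GS.s_mins W K v _ h1 h2 (hQ.minimal _)
    · intro C h1 h2 h3 h4 h6
      have e : (base W K).Δ = (W.Δ : K) := by
        rw [WeierstrassCurve.map_Δ]
        simp
      rw [e, hunit v hv]
      exact Fn.disc_le v _ h1 h2 h3 h4 h6
  · refine (W165.CE.finite_bad (K := K) W.Δ hΔ).subset ?_
    intro v hv
    by_contra hcon
    apply hv
    apply hc1 v
    intro h
    apply hcon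
    have h6 : ((W.Δ.natAbs : ℕ) : 𝓞 K) ∈ v.asIdeal := by
      rcases Int.natAbs_eq W.Δ with h8 | h8
      · rw [h8] at h
        rw [Int.cast_natCast] at h
        exact h
      · rw [h8, Int.cast_neg, neg_mem_iff, Int.cast_natCast] at h
        exact h
    rw [Pool.Agent.H82R3.EK.natCast_mem_iff] at h6
    exact Int.natCast_dvd.2 h6
  · obtain ⟨ε, hε, hεr⟩ : ∃ ε : ℚ, (ε = 1 ∨ ε = -1) ∧ (H 1).re = ε * |(H 1).re| := by
      rcases le_total 0 (H 1).re with h | h
      · exact ⟨1, Or.inl rfl, by rw [abs_of_nonneg h]; push_cast; ring⟩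
      · exact ⟨-1, Or.inr rfl, by rw [abs_of_nonpos h]; push_cast; ring⟩
    refine ⟨ε * (|(M' : ℚ)| / |(D' : ℚ)|), ?_, ?_, ?_⟩
    · rw [hnorm] at hval'
      rw [hre, hεr]
      have h2 : ((|(H 1).re| : ℝ) : ℂ) * (√|(discr K : ℝ)| : ℝ) =
          ((|(M' : ℝ)| / |(D' : ℝ)| * Omega K W : ℝ) : ℂ) := by
        rw [← Complex.ofReal_mul, hval']
      have h3 : ∀ x : ℤ, (((|(x : ℚ)| : ℚ) : ℂ)) = ((|(x : ℝ)| : ℝ) : ℂ) := by
        intro x
        rw [← Complex.ofReal_ratCast]
        push_cast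
        rfl
      rw [Complex.ofReal_mul, Complex.ofReal_div, ← h3, ← h3] at h2
      rw [Complex.ofReal_mul, Complex.ofReal_ratCast, Rat.cast_mul, Rat.cast_div]
      linear_combination (ε : ℂ) * h2
    · have h1 : ε ≠ 0 := by rcases hε with rfl | rfl <;> norm_num
      have h2 : |(M' : ℚ)| ≠ 0 := by
        have := hM0.ne'
        exact_mod_cast this
      have h3 : |(D' : ℚ)| ≠ 0 := by
        have := hD0.ne'
        exact_mod_cast this
      exact mul_ne_zero h1 (div_ne_zero h2 h3)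
    · rw [all_val hAO]
      exact val_zero D' M' hDo' hMo ε hε

end core

end proof

/-- **Main theorem.** Let `W` be a Weierstrass equation with integral coefficients and nonzero
discriminant `Δ` and `p` an odd prime; let `f` be the newform of `W`, of a level `N` with the same prime
divisors as `Δ`; let `Λ` be the period lattice of the differential `dx / (2 y + a₁ x + a₃)` of `W` (the
lattice with `g₂ = c₄ / 12`, `g₃ = c₆ / 216`), and assume that `c` times the periods of
`2 π i f(z) dz` on `Γ₀(N)` are in `Λ` for some `c` prime to `p` (the Manin constant is prime to `p`).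
Assume that `W` is minimal, `W(ℚ)` is finite of order prime to `p`, `Ш(W/ℚ)` has no element of order
`p`, the Tamagawa product is prime to `p` and `L(W, 1) / Ω` is a `p`-adic unit.  Let `m` be squarefree, and for all primes `l` that divide `m` let `l ∤ Δ`,
`l ≡ 1 (mod p)` and `p ∤ #W(𝔽_l)`; let `M` be the `m`-th cyclotomic field and `K` a subfield of degree
`p^n` such that the places that divide `6 p Δ` have a residue field of prime order, that is, the primes
that divide `6 p Δ` split completely in `K`.  Then the `p`-part of the Birch and Swinnerton-Dyer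
conjecture holds for `W` over `K`, and its terms are prime to `p`. -/
theorem result {N : ℕ} [NeZero N] {p : ℕ} (hp : p.Prime) (hp2 : p ≠ 2)
    (W : WeierstrassCurve ℤ) (hΔ : W.Δ ≠ 0)
    (f : CuspForm (Gamma0 N : Subgroup (GL (Fin 2) ℝ)) 2) (hf : IsNewform W N f)
    (Λ : PeriodPair) (hg₂ : Λ.g₂ = (W.c₄ : ℂ) / 12) (hg₃ : Λ.g₃ = (W.c₆ : ℂ) / 216)
    (hman : ∃ c : ℤ, ¬ (p : ℤ) ∣ c ∧ ∀ γ ∈ Gamma0 N, ∀ z : ℍ,
      (c : ℂ) * (prim f ((γ • z : ℍ) : ℂ) - prim f (z : ℂ)) ∈ Λ.lattice)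
    (hQ : UnitAt p W)
    (m : ℕ) [NeZero m] (hsq : Squarefree m)
    (hm : ∀ l : ℕ, l.Prime → l ∣ m →
      ¬ (l : ℤ) ∣ W.Δ ∧ p ∣ l - 1 ∧ ¬ p ∣ pts W (ZMod l) + 1)
    (M : Type) [Field M] [NumberField M] [IsCyclotomicExtension {m} ℚ M]
    (K : IntermediateField ℚ M) (n : ℕ) (hn : Module.finrank ℚ K = p ^ n)
    (hsplit : ∀ v : HeightOneSpectrum (𝓞 K), ((6 * p * W.Δ : ℤ) : 𝓞 K) ∈ v.asIdeal →
      (Ideal.absNorm v.asIdeal).Prime) :
    BSDp p K W ∧ AllPrime p K W :=
  core (hp := ⟨hp⟩) hp2 W hΔ f hf Λ hg₂ hg₃ hman hQ m hsq hm M K n hn hsplit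

end Pool.Agent.Results.MP_e996df_nt.OddPartLifting
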